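import Pool.Agent.Helper41.T5.Reg
import Pool.Agent.Helper22.SL.PrG
import Pool.Agent.Helper22.HW.Keys
import Pool.Agent.Helper22.SL.Defs

/-!
# Regularity of the codes of a static level

`reg_code`: the codes `cd w y / F` of one side of one static level (`Helper22.HW.Side`), the keys
being uniform, are regular: for ALL arcs of length `A` and ALL classes modulo `h` (`h` coprime to
the modulus `Q`) the number of `y` is at most `ρ (1 + A / (h sqrt Q))`,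
`ρ = 68 T (p_1 + p_2)^2 E₀^2`, off an event of probability `2 (Q + 1)^4 exp (-T)`.
-/

set_option autoImplicit false

namespace Pool.Agent.Helper41.T5

open Finset Pool.Agent.Helper27.T4 Pool.Agent.Helper29.T4 Pool.Agent.Helper22.HW
  Pool.Agent.Helper22.SL

/-- differences of the indices of primes -/
theorem difLe_Lg {p : ℕ} (hp : p.Prime) (hp2 : p ≠ 2) (a : ℕ) (U : Finset ℕ)
    (hU : ∀ x ∈ U, x.Prime ∧ x.Coprime p ∧ x ^ 2 < p ^ a) : DifLe (Lg p a) U (p - 1) := by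
  classical
  intro δ
  set D := (U ×ˢ U).filter (fun z => z.1 ≠ z.2 ∧ Lg p a z.1 - Lg p a z.2 = δ) with hD
  rcases D.eq_empty_or_nonempty with he | ⟨z₀, hz₀⟩
  · rw [he]; simp
  have m0 : (z₀.1 ∈ U ∧ z₀.2 ∈ U) ∧ z₀.1 ≠ z₀.2 ∧ Lg p a z₀.1 - Lg p a z₀.2 = δ := by
    rw [hD, mem_filter, mem_product] at hz₀; exact hz₀
  have hpa : 0 < p ^ (a + 1) := pow_pos hp.pos _
  have hne : NeZero (p ^ (a + 1)) := ⟨hpa.ne'⟩
  -- `w z = z.1 * z₀.2 / (z.2 * z₀.1)` modulo `p^(a+1)`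
  have hun : ∀ x ∈ U, IsUnit (x : ZMod (p ^ (a + 1))) := fun x hx => by
    rw [ZMod.isUnit_iff_coprime]
    exact Nat.Coprime.pow_right _ (hU x hx).2.1
  set f : ℕ × ℕ → ℕ := fun z =>
    (((z.1 : ℕ) : ZMod (p ^ (a + 1))) * ((z.2 : ℕ) : ZMod (p ^ (a + 1)))⁻¹).val with hf
  have hlt : ∀ x ∈ U, ∀ y ∈ U, x * y < p ^ (a + 1) := by
    intro x hx y hy
    have h1 := (hU x hx).2.2
    have h2 := (hU y hy).2.2
    have h3 : (x * y) ^ 2 < (p ^ a) ^ 2 := by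
      rw [mul_pow, sq (p ^ a)]
      exact Nat.mul_lt_mul'' h1 h2
    have h4 : x * y < p ^ a := lt_of_pow_lt_pow_left₀ 2 (Nat.zero_le _) h3
    exact h4.trans_le (Nat.pow_le_pow_right hp.pos (Nat.le_succ a))
  -- the quotient determines the pair
  have hinj : Set.InjOn f D := by
    intro z hz z' hz' hzz
    rw [mem_coe, hD, mem_filter, mem_product] at hz hz'
    simp only [hf] at hzz
    have e1 := ZMod.val_injective _ hzz
    have u2 := hun _ hz.1.2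
    have u2' := hun _ hz'.1.2
    have e2 : ((z.1 * z'.2 : ℕ) : ZMod (p ^ (a + 1))) = ((z'.1 * z.2 : ℕ) : ZMod (p ^ (a + 1))) := by
      push_cast
      have i2 : ((z.2 : ℕ) : ZMod (p ^ (a + 1)))⁻¹ * (z.2 : ZMod (p ^ (a + 1))) = 1 :=
        ZMod.inv_mul_of_unit _ u2
      have i2' : ((z'.2 : ℕ) : ZMod (p ^ (a + 1)))⁻¹ * (z'.2 : ZMod (p ^ (a + 1))) = 1 :=
        ZMod.inv_mul_of_unit _ u2'
      calc (z.1 : ZMod (p ^ (a + 1))) * (z'.2 : ZMod (p ^ (a + 1)))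
          = ((z.1 : ZMod (p ^ (a + 1))) * (z.2 : ZMod (p ^ (a + 1)))⁻¹) *
            ((z.2 : ZMod (p ^ (a + 1))) * (z'.2 : ZMod (p ^ (a + 1)))) := by
            linear_combination (-(z.1 : ZMod (p ^ (a + 1))) * (z'.2 : ZMod (p ^ (a + 1)))) * i2
        _ = ((z'.1 : ZMod (p ^ (a + 1))) * (z'.2 : ZMod (p ^ (a + 1)))⁻¹) *
            ((z.2 : ZMod (p ^ (a + 1))) * (z'.2 : ZMod (p ^ (a + 1)))) := by rw [e1]
        _ = _ := by
            linear_combination ((z'.1 : ZMod (p ^ (a + 1))) * (z.2 : ZMod (p ^ (a + 1)))) * i2'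
    have e3 : z.1 * z'.2 = z'.1 * z.2 := by
      have e4 := (ZMod.natCast_eq_natCast_iff _ _ _).1 e2
      exact Nat.ModEq.eq_of_lt_of_lt e4 (hlt _ hz.1.1 _ hz'.1.2) (hlt _ hz'.1.1 _ hz.1.2)
    have p1 := (hU _ hz.1.1).1
    have p2 := (hU _ hz.1.2).1
    have p1' := (hU _ hz'.1.1).1
    have p2' := (hU _ hz'.1.2).1
    have e5 : z.1 = z'.1 := by
      have h1 : z.1 ∣ z'.1 * z.2 := by rw [← e3]; exact dvd_mul_right _ _
      rcases (Nat.Prime.dvd_mul p1).1 h1 with h2 | h2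
      · exact (Nat.prime_dvd_prime_iff_eq p1 p1').1 h2
      · exact absurd ((Nat.prime_dvd_prime_iff_eq p1 p2).1 h2) hz.2.1
    have e6 : z.2 = z'.2 := by
      rw [e5] at e3
      exact (Nat.eq_of_mul_eq_mul_left p1'.pos e3).symm
    exact Prod.ext e5 e6
  -- the quotients have a fixed power `p - 1`
  have hdl : ∀ z ∈ D, f z ∈ (range (p ^ (a + 1))).filter
      (fun m => m.Coprime p ∧ Lg p a m = δ) := by
    intro z hz
    rw [hD, mem_filter, mem_product] at hz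
    rw [mem_filter, mem_range]
    have u1 := hun _ hz.1.1
    have u2 := hun _ hz.1.2
    have hfv : ((f z : ℕ) : ZMod (p ^ (a + 1))) =
        ((z.1 : ℕ) : ZMod (p ^ (a + 1))) * ((z.2 : ℕ) : ZMod (p ^ (a + 1)))⁻¹ := by
      simp only [hf]
      rw [ZMod.natCast_zmod_val]
    have hmul : (((f z * z.2 : ℕ)) : ZMod (p ^ (a + 1))) = ((z.1 : ℕ) : ZMod (p ^ (a + 1))) := by
      rw [Nat.cast_mul, hfv, mul_assoc, ZMod.inv_mul_of_unit _ u2, mul_one]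
    have hco : (f z).Coprime p := by
      have h1 : IsUnit (((f z : ℕ)) : ZMod (p ^ (a + 1))) := by
        rw [hfv]
        exact u1.mul (by
          have := ZMod.mul_inv_of_unit _ u2
          exact IsUnit.of_mul_eq_one_right _ this)
      rw [ZMod.isUnit_iff_coprime] at h1
      exact Nat.Coprime.coprime_dvd_right (dvd_pow_self p (Nat.succ_ne_zero a)) h1
    refine ⟨ZMod.val_lt _, hco, ?_⟩
    have h2 := Lg_congr a _ _ hmul
    rw [Lg_mul hp hp2 a _ _ hco (hU _ hz.1.2).2.1] at h2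
    rw [← hz.2.2, ← h2, add_sub_cancel_right]
  exact (card_le_card_of_injOn f hdl hinj).trans (card_Lg_le hp hp2 a δ)

/-- multiplication by a unit -/
theorem DifLe.unit {Q : ℕ} {L : ℕ → ZMod Q} {U : Finset ℕ} {C : ℕ} (h : DifLe L U C)
    (u : (ZMod Q)ˣ) : DifLe (fun x => (u : ZMod Q) * L x) U C := by
  intro δ
  refine le_trans (card_le_card ?_) (h ((u⁻¹ : (ZMod Q)ˣ) * δ))
  intro z hz
  rw [mem_filter] at hz ⊢
  refine ⟨hz.1, hz.2.1, ?_⟩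
  rw [← hz.2.2, ← mul_sub, Units.inv_mul_cancel_left]

theorem DifLe.mono {Q : ℕ} {L : ℕ → ZMod Q} {U : Finset ℕ} {C C' : ℕ} (h : DifLe L U C)
    (hC : C ≤ C') : DifLe L U C' := fun δ => (h δ).trans hC

/-- numbers whose squares are below `Q` -/
theorem card_sq_le (U : Finset ℕ) (Q : ℕ) (hU : ∀ x ∈ U, 0 < x ∧ x ^ 2 < Q) : U.card ^ 2 ≤ Q := by
  rcases U.eq_empty_or_nonempty with he | hne
  · rw [he]; simp
  have h1 : U ⊆ Icc 1 (U.max' hne) := by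
    intro x hx
    rw [mem_Icc]
    exact ⟨(hU x hx).1, U.le_max' x hx⟩
  have h2 := card_le_card h1
  rw [Nat.card_Icc, Nat.add_sub_cancel] at h2
  exact (Nat.pow_le_pow_left h2 2).trans (hU _ (U.max'_mem hne)).2.le

/-- regular numbers -/
def RegOK {β : Type*} (Y : Finset β) (m : β → ℕ) (Q : ℕ) (ρ : ℝ) : Prop :=
  ∀ h, 0 < h → h.Coprime Q → ∀ a A c : ℕ,
    ((Y.filter fun y => a ≤ m y ∧ m y < a + A ∧ m y % h = c % h).card : ℝ) ≤
      ρ * (1 + A / (h * Real.sqrt Q))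

section inst

variable {p : Fin 3 → ℕ} {κ : Type*} [DecidableEq κ]

omit [DecidableEq κ] in
/-- the code divided by the front -/
theorem cd_div (hp : ∀ i, (p i).Prime) (hinj : Function.Injective p) (S : Side p κ)
    (hF : 0 < S.F) (w : κ → ℕ) (y : Fin 3 → ℕ) :
    S.cd hp hinj w y / S.F = cv hp hinj S.e (fun i => ((S.F : ℕ) : ZMod (p i ^ S.e i))⁻¹ *
      (Lg (p i) (S.e i) (y i) + S.rho w i y)) := by
  rw [Side.cd, lc, fc, Nat.mul_div_cancel_left _ hF]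

variable (hp : ∀ i, (p i).Prime) (hp2 : ∀ i, p i ≠ 2) (hinj : Function.Injective p)
  (S : Side p κ) {Mk : κ → ℕ} (hS : S.Ok rk3 Mk) (U : Fin 3 → Finset ℕ) (K : Finset κ)
  (y0 : Fin 3 → ℕ)

open Classical in
/-- key of the family 1 -/
noncomputable def key1 (k0 : K) (x : ℕ) : K :=
  if h : S.key 1 ![x, y0 1, y0 2] ∈ K then ⟨_, h⟩ else k0

open Classical in
/-- key of the family 2 -/
noncomputable def key2 (k0 : K) (x y : ℕ) : K :=
  if h : S.key 2 ![x, y, y0 2] ∈ K then ⟨_, h⟩ else k0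

/-- the unit `1 / F` -/
noncomputable def uF (hS : S.Ok rk3 Mk) (i : Fin 3) : (ZMod (p i ^ S.e i))ˣ :=
  (ZMod.unitOfCoprime S.F (Nat.Coprime.pow_right _ (hS.cop i)))⁻¹

omit [DecidableEq κ] in
theorem uF_val (i : Fin 3) :
    ((uF S hS i : (ZMod (p i ^ S.e i))ˣ) : ZMod (p i ^ S.e i)) =
      ((S.F : ℕ) : ZMod (p i ^ S.e i))⁻¹ := by
  rw [uF]
  have h1 : ((S.F : ℕ) : ZMod (p i ^ S.e i)) *
      ((ZMod.unitOfCoprime S.F (Nat.Coprime.pow_right (S.e i) (hS.cop i)))⁻¹ :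
        (ZMod (p i ^ S.e i))ˣ) = 1 := by
    rw [← ZMod.coe_unitOfCoprime S.F (Nat.Coprime.pow_right (S.e i) (hS.cop i)), Units.mul_inv]
  have h2 : ((S.F : ℕ) : ZMod (p i ^ S.e i))⁻¹ * ((S.F : ℕ) : ZMod (p i ^ S.e i)) = 1 := by
    rw [mul_comm]
    exact ZMod.coe_mul_inv_eq_one S.F (Nat.Coprime.pow_right _ (hS.cop i))
  calc _ = (((S.F : ℕ) : ZMod (p i ^ S.e i))⁻¹ * ((S.F : ℕ) : ZMod (p i ^ S.e i))) *
        ((ZMod.unitOfCoprime S.F (Nat.Coprime.pow_right (S.e i) (hS.cop i)))⁻¹ :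
        (ZMod (p i ^ S.e i))ˣ) := by rw [h2, one_mul]
    _ = _ := by rw [mul_assoc, h1, mul_one]

/-- the level -/
noncomputable def levOf (hp : ∀ i, (p i).Prime) (hinj : Function.Injective p) (S : Side p κ)
    (hS : S.Ok rk3 Mk) (U : Fin 3 → Finset ℕ) (K : Finset κ) (y0 : Fin 3 → ℕ) (k0 : K)
    (E0 : ℕ) : Lev K where
  QF := p 0 ^ S.e 0
  Q1 := p 1 ^ S.e 1
  Q2 := p 2 ^ S.e 2
  YF := U 0
  Y1 := U 1
  Y2 := U 2
  k1 := key1 S K y0 k0
  k2 := key2 S K y0 k0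
  cF := fun r x => ((S.F : ℕ) : ZMod (p 0 ^ S.e 0))⁻¹ *
    (Lg (p 0) (S.e 0) x + S.rho (ext K r) 0 ![x, y0 1, y0 2])
  L1 := fun y => ((uF S hS 1 : (ZMod (p 1 ^ S.e 1))ˣ) : ZMod (p 1 ^ S.e 1)) * Lg (p 1) (S.e 1) y
  u1 := uF S hS 1
  L2 := fun z => ((uF S hS 2 : (ZMod (p 2 ^ S.e 2))ˣ) : ZMod (p 2 ^ S.e 2)) * Lg (p 2) (S.e 2) z
  u2 := uF S hS 2
  rho := fun r x y z => S.cd hp hinj (ext K r) ![x, y, z] / S.F
  C0 := p 1 + p 2 - 1
  E0 := E0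

omit [DecidableEq κ] in
theorem key_dep0 (hS : S.Ok rk3 Mk) (y y' : Fin 3 → ℕ) : S.key 0 y = S.key 0 y' :=
  hS.dep 0 y y' (fun j hj => absurd hj (by simp [rk3]))

omit [DecidableEq κ] in
theorem key_dep1 (hS : S.Ok rk3 Mk) (y y' : Fin 3 → ℕ) (h : y 0 = y' 0) :
    S.key 1 y = S.key 1 y' := by
  refine hS.dep 1 y y' (fun j hj => ?_)
  fin_cases j
  · exact h
  · exact absurd hj (by simp [rk3])
  · exact absurd hj (by simp [rk3])

omit [DecidableEq κ] in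
theorem key_dep2 (hS : S.Ok rk3 Mk) (y y' : Fin 3 → ℕ) (h : y 0 = y' 0) (h1 : y 1 = y' 1) :
    S.key 2 y = S.key 2 y' := by
  refine hS.dep 2 y y' (fun j hj => ?_)
  fin_cases j
  · exact h
  · exact h1
  · exact absurd hj (by simp [rk3])

theorem mem_box {U : Fin 3 → Finset ℕ} {x y z : ℕ} (hx : x ∈ U 0) (hy : y ∈ U 1) (hz : z ∈ U 2) :
    (![x, y, z] : Fin 3 → ℕ) ∈ Fintype.piFinset U := by
  rw [Fintype.mem_piFinset]
  intro i
  fin_cases i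
  · exact hx
  · exact hy
  · exact hz

theorem NN_three (p e : Fin 3 → ℕ) : NN p e = p 0 ^ e 0 * p 1 ^ e 1 * p 2 ^ e 2 := by
  rw [NN, Fin.prod_univ_three]

/-- **the level of a side is in order** -/
theorem levOf_ok (hp : ∀ i, (p i).Prime) (hp2 : ∀ i, p i ≠ 2) (hinj : Function.Injective p)
    (S : Side p κ) (hS : S.Ok rk3 Mk) (U : Fin 3 → Finset ℕ) (K : Finset κ) (y0 : Fin 3 → ℕ)
    (hy0 : y0 ∈ Fintype.piFinset U)
    (hU : ∀ i, Pool.Agent.Helper73.T5.SFam (p i) (S.e i) (U i))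
    (hK : ∀ i, ∀ y ∈ Fintype.piFinset U, S.key i y ∈ K) (E0 : ℕ) (he : 1 ≤ E0)
    (sF : p 0 ^ S.e 0 ≤ E0 * (p 1 ^ S.e 1 * p 2 ^ S.e 2))
    (s1 : p 1 ^ S.e 1 ≤ E0 * (p 0 ^ S.e 0 * p 2 ^ S.e 2))
    (s2 : p 2 ^ S.e 2 ≤ E0 * (p 0 ^ S.e 0 * p 1 ^ S.e 1)) :
    (levOf hp hinj S hS U K y0 ⟨S.key 0 y0, hK 0 y0 hy0⟩ E0).Ok (fun k => range (Mk k))
      {⟨S.key 0 y0, hK 0 y0 hy0⟩} := by
  have hy := Fintype.mem_piFinset.1 hy0
  set k0 : K := ⟨S.key 0 y0, hK 0 y0 hy0⟩ with hk0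
  have e1 : ∀ x ∈ U 0, ((key1 S K y0 k0 x : K) : κ) = S.key 1 ![x, y0 1, y0 2] := by
    intro x hx
    rw [key1, dif_pos (hK 1 _ (mem_box hx (hy 1) (hy 2)))]
  have e2 : ∀ x ∈ U 0, ∀ y ∈ U 1, ((key2 S K y0 k0 x y : K) : κ) = S.key 2 ![x, y, y0 2] := by
    intro x hx y hy'
    rw [key2, dif_pos (hK 2 _ (mem_box hx hy' (hy 2)))]
  -- the values of the hashes
  have v0 : ∀ (r : K → ℕ) (x y z : ℕ), S.rho (ext K r) 0 ![x, y, z] =
      ((r k0 : ℕ) : ZMod (p 0 ^ S.e 0)) := by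
    intro r x y z
    rw [Side.rho, key_dep0 S hS _ y0, ext_mem r (hK 0 y0 hy0)]
  have v1 : ∀ (r : K → ℕ), ∀ x ∈ U 0, ∀ y z : ℕ, S.rho (ext K r) 1 ![x, y, z] =
      ((r (key1 S K y0 k0 x) : ℕ) : ZMod (p 1 ^ S.e 1)) := by
    intro r x hx y z
    rw [Side.rho, key_dep1 S hS ![x, y, z] ![x, y0 1, y0 2] rfl, ← e1 x hx,
      ext_mem r (key1 S K y0 k0 x).2]
  have v2 : ∀ (r : K → ℕ), ∀ x ∈ U 0, ∀ y ∈ U 1, ∀ z : ℕ, S.rho (ext K r) 2 ![x, y, z] =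
      ((r (key2 S K y0 k0 x y) : ℕ) : ZMod (p 2 ^ S.e 2)) := by
    intro r x hx y hy' z
    rw [Side.rho, key_dep2 S hS ![x, y, z] ![x, y, y0 2] rfl rfl, ← e2 x hx y hy',
      ext_mem r (key2 S K y0 k0 x y).2]
  -- the components
  have comp : ∀ (r : K → ℕ) (y : Fin 3 → ℕ) (i : Fin 3),
      ((S.cd hp hinj (ext K r) y / S.F : ℕ) : ZMod (p i ^ S.e i)) =
        ((S.F : ℕ) : ZMod (p i ^ S.e i))⁻¹ * (Lg (p i) (S.e i) (y i) + S.rho (ext K r) i y) := by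
    intro r y i
    rw [cd_div hp hinj S hS.pos, cv_cast_comp hp hinj]
  have cop : ∀ i j : Fin 3, i ≠ j → (p i ^ S.e i).Coprime (p j ^ S.e j) := fun i j hij =>
    pw hp hinj S.e hij
  refine
    { pF := pow_pos (hp 0).pos _
      p1 := pow_pos (hp 1).pos _
      p2 := pow_pos (hp 2).pos _
      cop1 := cop 0 1 (by decide)
      cop2 := Nat.Coprime.mul_left (cop 0 2 (by decide)) (cop 1 2 (by decide))
      yF := (hU 0).card_sq
      y1 := (hU 1).card_sq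
      y2 := (hU 2).card_sq
      e0 := he
      sF := sF
      s1 := s1
      s2 := s2
      inj1 := ?_
      inj2 := ?_
      dis := ?_
      t1 := ?_
      t2 := ?_
      n1 := ?_
      n2 := ?_
      lt := ?_
      mF := ?_
      cF' := ?_
      m1 := ?_
      m2 := ?_
      d1 := ?_
      d2 := ?_ }
  · intro x hx x' hx' h
    have h1 := congrArg (fun k : K => (k : κ)) h
    simp only [levOf] at h1
    rw [e1 x hx, e1 x' hx'] at h1
    exact (hS.inj 1 1 _ _ h1).2 0 (by simp [rk3])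
  · intro x hx x' hx' y hy' y' hy'' h
    have h1 := congrArg (fun k : K => (k : κ)) h
    simp only [levOf] at h1
    rw [e2 x hx y hy', e2 x' hx' y' hy''] at h1
    have h2 := (hS.inj 2 2 _ _ h1).2
    exact ⟨h2 0 (by simp [rk3]), h2 1 (by simp [rk3])⟩
  · intro x hx x' hx' y hy' h
    have h1 := congrArg (fun k : K => (k : κ)) h
    simp only [levOf] at h1
    rw [e1 x hx, e2 x' hx' y hy'] at h1
    exact absurd (hS.inj 1 2 _ _ h1).1 (by decide)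
  · intro x hx
    change range (Mk (key1 S K y0 k0 x)) = _
    rw [e1 x hx, hS.size]
    rfl
  · intro x hx y hy'
    change range (Mk (key2 S K y0 k0 x y)) = _
    rw [e2 x hx y hy', hS.size]
    rfl
  · intro x hx h
    rw [mem_singleton] at h
    have h1 := congrArg (fun k : K => (k : κ)) h
    simp only [levOf] at h1
    rw [e1 x hx] at h1
    exact absurd (hS.inj 1 0 _ _ h1).1 (by decide)
  · intro x hx y hy' h
    rw [mem_singleton] at h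
    have h1 := congrArg (fun k : K => (k : κ)) h
    simp only [levOf] at h1
    rw [e2 x hx y hy'] at h1
    exact absurd (hS.inj 2 0 _ _ h1).1 (by decide)
  · intro r _ x _ y _ z _
    change S.cd hp hinj (ext K r) ![x, y, z] / S.F < p 0 ^ S.e 0 * p 1 ^ S.e 1 * p 2 ^ S.e 2
    rw [cd_div hp hinj S hS.pos, ← NN_three]
    exact cv_lt hp hinj _ _
  · intro r _ x _ y _ z _
    change ((S.cd hp hinj (ext K r) ![x, y, z] / S.F : ℕ) : ZMod (p 0 ^ S.e 0)) =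
      ((S.F : ℕ) : ZMod (p 0 ^ S.e 0))⁻¹ *
        (Lg (p 0) (S.e 0) x + S.rho (ext K r) 0 ![x, y0 1, y0 2])
    rw [comp, v0, v0]
    rfl
  · intro r _ r' _ x hrr
    change ((S.F : ℕ) : ZMod (p 0 ^ S.e 0))⁻¹ *
        (Lg (p 0) (S.e 0) x + S.rho (ext K r) 0 ![x, y0 1, y0 2]) =
      ((S.F : ℕ) : ZMod (p 0 ^ S.e 0))⁻¹ *
        (Lg (p 0) (S.e 0) x + S.rho (ext K r') 0 ![x, y0 1, y0 2])
    rw [v0, v0, hrr k0 (mem_singleton_self _)]
  · intro r _ x hx y _ z _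
    change ((S.cd hp hinj (ext K r) ![x, y, z] / S.F : ℕ) : ZMod (p 1 ^ S.e 1)) =
      ((uF S hS 1 : (ZMod (p 1 ^ S.e 1))ˣ) : ZMod (p 1 ^ S.e 1)) * Lg (p 1) (S.e 1) y +
        ((uF S hS 1 : (ZMod (p 1 ^ S.e 1))ˣ) : ZMod (p 1 ^ S.e 1)) *
          ((r (key1 S K y0 k0 x) : ℕ) : ZMod (p 1 ^ S.e 1))
    rw [comp, v1 r x hx, uF_val, ← mul_add]
    rfl
  · intro r _ x hx y hy' z _
    change ((S.cd hp hinj (ext K r) ![x, y, z] / S.F : ℕ) : ZMod (p 2 ^ S.e 2)) =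
      ((uF S hS 2 : (ZMod (p 2 ^ S.e 2))ˣ) : ZMod (p 2 ^ S.e 2)) * Lg (p 2) (S.e 2) z +
        ((uF S hS 2 : (ZMod (p 2 ^ S.e 2))ˣ) : ZMod (p 2 ^ S.e 2)) *
          ((r (key2 S K y0 k0 x y) : ℕ) : ZMod (p 2 ^ S.e 2))
    rw [comp, v2 r x hx y hy', uF_val, ← mul_add]
    rfl
  · have h1 := (hU 1).dif
    have := (hp 2).pos
    exact (h1.unit (uF S hS 1)).mono (by change p 1 - 1 ≤ p 1 + p 2 - 1; omega)
  · have h1 := (hU 2).dif
    exact (h1.unit (uF S hS 2)).mono (by change p 2 - 1 ≤ p 1 + p 2 - 1; omega)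

theorem PrG_le {K : Finset κ} {B : (κ → ℕ) → Prop} {ε : ℝ} {E : Finset (K → ℕ)}
    (hE : ∀ r ∈ OmK Mk K, B (ext K r) → r ∈ E)
    (h : (E.card : ℝ) ≤ ε * ((OmK Mk K).card : ℝ)) : PrG Mk K B ε := by
  rw [PrG]
  refine le_trans ?_ h
  refine Nat.cast_le.2 (card_le_card ?_)
  intro r hr
  simp only [mem_filter] at hr
  exact hE r hr.1 hr.2

open Classical in
/-- **Regularity of the codes of one side of a static level.** -/
theorem reg_code (hp : ∀ i, (p i).Prime) (hp2 : ∀ i, p i ≠ 2) (hinj : Function.Injective p)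
    (S : Side p κ) (hS : S.Ok rk3 Mk) (U : Fin 3 → Finset ℕ) (K : Finset κ)
    (hU : ∀ i, Pool.Agent.Helper73.T5.SFam (p i) (S.e i) (U i))
    (hK : ∀ i, ∀ y ∈ Fintype.piFinset U, S.key i y ∈ K)
    (Y : Finset (Fin 3 → ℕ)) (hY : Y ⊆ Fintype.piFinset U) (E0 : ℕ) (he : 1 ≤ E0)
    (sF : p 0 ^ S.e 0 ≤ E0 * (p 1 ^ S.e 1 * p 2 ^ S.e 2))
    (s1 : p 1 ^ S.e 1 ≤ E0 * (p 0 ^ S.e 0 * p 2 ^ S.e 2))
    (s2 : p 2 ^ S.e 2 ≤ E0 * (p 0 ^ S.e 0 * p 1 ^ S.e 1)) {T : ℝ} (hT : 1 ≤ T) :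
    PrG Mk K (fun w => ¬ RegOK Y (fun y => S.cd hp hinj w y / S.F) (NN p S.e)
      (68 * (T * ((p 1 : ℝ) + p 2) ^ 2 * E0 ^ 2)))
      (2 * ((NN p S.e : ℝ) + 1) ^ 4 * Real.exp (-T)) := by
  rcases Y.eq_empty_or_nonempty with hYe | ⟨y0, hy0'⟩
  · -- nothing to count
    have h1 : ∀ w : κ → ℕ, RegOK Y (fun y => S.cd hp hinj w y / S.F)
        (NN p S.e) (68 * (T * ((p 1 : ℝ) + p 2) ^ 2 * E0 ^ 2)) := by
      intro w h _ _ a A c
      rw [hYe, Finset.filter_empty, card_empty, Nat.cast_zero]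
      positivity
    refine PrG_le (E := ∅) (fun r _ h => absurd (h1 _) h) ?_
    rw [card_empty, Nat.cast_zero]
    positivity
  have hy0 := hY hy0'
  have hOk := levOf_ok hp hp2 hinj S hS U K y0 hy0 hU hK E0 he sF s1 s2
  set Lv := levOf hp hinj S hS U K y0 ⟨S.key 0 y0, hK 0 y0 hy0⟩ E0 with hLv
  have h1 := hOk.regular hT
  have hC : ((Lv.C0 : ℕ) : ℝ) + 1 = (p 1 : ℝ) + p 2 := by
    have h2 : Lv.C0 + 1 = p 1 + p 2 := by
      change p 1 + p 2 - 1 + 1 = p 1 + p 2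
      have := (hp 1).pos
      omega
    exact_mod_cast h2
  have hQ : Lv.Q = NN p S.e := by rw [NN_three]; rfl
  have hE : ((Lv.E0 : ℕ) : ℝ) = E0 := rfl
  rw [hC, hQ, hE] at h1
  refine PrG_le (fun r hr hB => ?_) (h1.trans (le_of_eq (mul_comm _ _)))
  rw [mem_filter]
  refine ⟨hr, fun hreg => hB ?_⟩
  intro h hh hc a A c
  have h2 := hreg a A h c hh (by rw [hQ]; exact hc)
  rw [hQ] at h2
  refine le_trans ?_ h2
  rw [Nat.cast_le, Lev.X]
  refine card_le_card_of_injOn (fun y => (y 0, (y 1, y 2))) ?_ ?_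
  · intro y hy
    rw [mem_coe, mem_filter] at hy
    have hyU := Fintype.mem_piFinset.1 (hY hy.1)
    have hyv : y = ![y 0, y 1, y 2] := by
      funext i
      fin_cases i <;> rfl
    rw [mem_coe, mem_filter, mem_product, mem_product]
    refine ⟨⟨hyU 0, hyU 1, hyU 2⟩, ?_⟩
    change AP a A h c (S.cd hp hinj (ext K r) ![y 0, y 1, y 2] / S.F)
    rw [← hyv]
    exact ⟨⟨hy.2.1, hy.2.2.1⟩, hy.2.2.2⟩
  · intro y _ y' _ hyy
    simp only [Prod.mk.injEq] at hyy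
    funext i
    fin_cases i
    · exact hyy.1
    · exact hyy.2.1
    · exact hyy.2.2

end inst

end Pool.Agent.Helper41.T5
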