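import Mathlib

/-!
# Independent blocks of keys: factorization and a one-sided Chernoff bound

`Fintype.piFinset t` is the space of the keys.  `block_chernoff`: nonnegative functions `X y`
bounded by `b`, each depending only on the keys of the block `B y` and on the common keys `K₀`,
the blocks being disjoint from each other and from `K₀`.
-/

namespace Pool.Agent.Helper41.T5

open Finset

variable {κ : Type*} [Fintype κ] [DecidableEq κ]

/-- the keys of `B` from `r`, the others from `r'` -/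
def mix (B : Finset κ) (r r' : κ → ℕ) : κ → ℕ := fun k => if k ∈ B then r k else r' k

theorem mix_mem {t : κ → Finset ℕ} (B : Finset κ) {r r' : κ → ℕ} (hr : r ∈ Fintype.piFinset t)
    (hr' : r' ∈ Fintype.piFinset t) : mix B r r' ∈ Fintype.piFinset t := by
  rw [Fintype.mem_piFinset] at *
  intro k
  unfold mix
  split_ifs
  · exact hr k
  · exact hr' k

omit [Fintype κ] in
theorem mix_mix (B : Finset κ) (r r' : κ → ℕ) : mix B (mix B r r') (mix B r' r) = r := by
  funext k
  unfold mix
  split_ifs <;> rfl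

/-- factorization -/
theorem sum_mul_indep (t : κ → Finset ℕ) (B : Finset κ) (f g : (κ → ℕ) → ℝ)
    (hf : ∀ r ∈ Fintype.piFinset t, ∀ r' ∈ Fintype.piFinset t, (∀ k ∈ B, r k = r' k) → f r = f r')
    (hg : ∀ r ∈ Fintype.piFinset t, ∀ r' ∈ Fintype.piFinset t, (∀ k, k ∉ B → r k = r' k) →
      g r = g r') :
    ((Fintype.piFinset t).card : ℝ) * ∑ r ∈ Fintype.piFinset t, f r * g r =
      (∑ r ∈ Fintype.piFinset t, f r) * ∑ r ∈ Fintype.piFinset t, g r := by
  have h1 : ((Fintype.piFinset t).card : ℝ) * ∑ r ∈ Fintype.piFinset t, f r * g r =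
      ∑ z ∈ Fintype.piFinset t ×ˢ Fintype.piFinset t, f z.1 * g z.1 := by
    rw [Finset.sum_product]
    simp only [Finset.sum_const, nsmul_eq_mul]
    rw [← Finset.mul_sum]
  rw [h1, Finset.sum_mul_sum, ← Finset.sum_product']
  refine Finset.sum_nbij' (fun z => (mix B z.1 z.2, mix B z.2 z.1))
    (fun z => (mix B z.1 z.2, mix B z.2 z.1)) ?_ ?_ ?_ ?_ ?_
  · intro z hz
    rw [mem_product] at hz ⊢
    exact ⟨mix_mem B hz.1 hz.2, mix_mem B hz.2 hz.1⟩
  · intro z hz
    rw [mem_product] at hz ⊢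
    exact ⟨mix_mem B hz.1 hz.2, mix_mem B hz.2 hz.1⟩
  · intro z _
    exact Prod.ext (mix_mix B z.1 z.2) (mix_mix B z.2 z.1)
  · intro z _
    exact Prod.ext (mix_mix B z.1 z.2) (mix_mix B z.2 z.1)
  · intro z hz
    rw [mem_product] at hz
    have h2 : f z.1 = f (mix B z.1 z.2) := by
      refine hf _ hz.1 _ (mix_mem B hz.1 hz.2) (fun k hk => ?_)
      simp only [mix, if_pos hk]
    have h3 : g z.1 = g (mix B z.2 z.1) := by
      refine hg _ hz.1 _ (mix_mem B hz.2 hz.1) (fun k hk => ?_)
      simp only [mix, if_neg hk]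
    simp only
    rw [← h2, ← h3]

/-- product of functions of disjoint blocks -/
theorem block_prod {β : Type*} [DecidableEq β] (t : κ → Finset ℕ)
    (hne : (Fintype.piFinset t).Nonempty) (B : β → Finset κ)
    (f : β → (κ → ℕ) → ℝ) (c : β → ℝ) (Y : Finset β)
    (hB : ∀ y ∈ Y, ∀ y' ∈ Y, y ≠ y' → Disjoint (B y) (B y'))
    (hf0 : ∀ y ∈ Y, ∀ r ∈ Fintype.piFinset t, 0 ≤ f y r)
    (hf : ∀ y ∈ Y, ∀ r ∈ Fintype.piFinset t, ∀ r' ∈ Fintype.piFinset t,
      (∀ k ∈ B y, r k = r' k) → f y r = f y r')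
    (hc : ∀ y ∈ Y, ∑ r ∈ Fintype.piFinset t, f y r ≤ (Fintype.piFinset t).card * c y) :
    ∑ r ∈ Fintype.piFinset t, ∏ y ∈ Y, f y r ≤ (Fintype.piFinset t).card * ∏ y ∈ Y, c y := by
  have hpos : (0 : ℝ) < (Fintype.piFinset t).card := by
    exact_mod_cast Finset.card_pos.2 hne
  induction Y using Finset.induction_on with
  | empty => simp
  | insert y Y hy ih =>
    have ih' := ih (fun a ha b hb => hB a (mem_insert_of_mem ha) b (mem_insert_of_mem hb))
      (fun a ha => hf0 a (mem_insert_of_mem ha)) (fun a ha => hf a (mem_insert_of_mem ha))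
      (fun a ha => hc a (mem_insert_of_mem ha))
    have h1 := sum_mul_indep t (B y) (f y) (fun r => ∏ y ∈ Y, f y r)
      (hf y (mem_insert_self _ _)) (by
        intro r hr r' hr' hrr
        refine Finset.prod_congr rfl (fun a ha => ?_)
        refine hf a (mem_insert_of_mem ha) r hr r' hr' (fun k hk => hrr k (fun hk' => ?_))
        have hay : a ≠ y := fun h => hy (h ▸ ha)
        exact Finset.disjoint_left.1 (hB a (mem_insert_of_mem ha) y (mem_insert_self _ _) hay)
          hk hk')
    have hc0 : 0 ≤ c y := by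
      have h2 : 0 ≤ ∑ r ∈ Fintype.piFinset t, f y r :=
        Finset.sum_nonneg (fun r hr => hf0 y (mem_insert_self _ _) r hr)
      have h3 := hc y (mem_insert_self _ _)
      by_contra hneg
      push Not at hneg
      have h4 : ((Fintype.piFinset t).card : ℝ) * c y < 0 := mul_neg_of_pos_of_neg hpos hneg
      linarith
    have h5 : 0 ≤ ∑ r ∈ Fintype.piFinset t, ∏ y ∈ Y, f y r :=
      Finset.sum_nonneg (fun r hr => Finset.prod_nonneg (fun a ha =>
        hf0 a (mem_insert_of_mem ha) r hr))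
    simp only [Finset.prod_insert hy]
    have h6 : ((Fintype.piFinset t).card : ℝ) *
        ∑ r ∈ Fintype.piFinset t, f y r * ∏ y ∈ Y, f y r ≤
        ((Fintype.piFinset t).card : ℝ) *
          ((Fintype.piFinset t).card * (c y * ∏ y ∈ Y, c y)) := by
      rw [h1]
      calc (∑ r ∈ Fintype.piFinset t, f y r) * ∑ r ∈ Fintype.piFinset t, ∏ y ∈ Y, f y r
          ≤ ((Fintype.piFinset t).card * c y) * ((Fintype.piFinset t).card * ∏ y ∈ Y, c y) :=
            mul_le_mul (hc y (mem_insert_self _ _)) ih' h5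
              (mul_nonneg hpos.le hc0)
        _ = _ := by ring
    exact le_of_mul_le_mul_left h6 hpos

theorem exp_le_lin {x : ℝ} (h0 : 0 ≤ x) (h1 : x ≤ 1) : Real.exp x ≤ 1 + 2 * x := by
  have h2 : |x| ≤ 1 := by rw [abs_of_nonneg h0]; exact h1
  have h3 := Real.abs_exp_sub_one_sub_id_le h2
  have h4 := (abs_le.1 h3).2
  nlinarith

open Classical in
/-- **One-sided Chernoff bound** for independent blocks, without common keys. -/
theorem block_chernoff₀ {β : Type*} [DecidableEq β] (t : κ → Finset ℕ) (B : β → Finset κ)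
    (X : β → (κ → ℕ) → ℝ) (μ : β → ℝ) (Y : Finset β) (b : ℝ) (hb : 0 < b)
    (hB : ∀ y ∈ Y, ∀ y' ∈ Y, y ≠ y' → Disjoint (B y) (B y'))
    (hX0 : ∀ y ∈ Y, ∀ r ∈ Fintype.piFinset t, 0 ≤ X y r)
    (hXb : ∀ y ∈ Y, ∀ r ∈ Fintype.piFinset t, X y r ≤ b)
    (hX : ∀ y ∈ Y, ∀ r ∈ Fintype.piFinset t, ∀ r' ∈ Fintype.piFinset t,
      (∀ k ∈ B y, r k = r' k) → X y r = X y r')
    (hμ : ∀ y ∈ Y, ∑ r ∈ Fintype.piFinset t, X y r ≤ (Fintype.piFinset t).card * μ y) (T : ℝ) :
    (((Fintype.piFinset t).filter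
      (fun r => 2 * ∑ y ∈ Y, μ y + T * b < ∑ y ∈ Y, X y r)).card : ℝ) ≤
      (Fintype.piFinset t).card * Real.exp (-T) := by
  rcases (Fintype.piFinset t).eq_empty_or_nonempty with he | hne
  · rw [he]; simp
  have hpos : (0 : ℝ) < (Fintype.piFinset t).card := by
    exact_mod_cast Finset.card_pos.2 hne
  have h1 := block_prod t hne B (fun y r => Real.exp (X y r / b))
    (fun y => Real.exp (2 * μ y / b)) Y hB (fun y _ r _ => (Real.exp_pos _).le)
    (fun y hy r hr r' hr' h => congrArg (fun x => Real.exp (x / b)) (hX y hy r hr r' hr' h)) (by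
      intro y hy
      calc ∑ r ∈ Fintype.piFinset t, Real.exp (X y r / b)
          ≤ ∑ r ∈ Fintype.piFinset t, (1 + 2 * (X y r / b)) := by
            refine Finset.sum_le_sum (fun r hr => exp_le_lin ?_ ?_)
            · exact div_nonneg (hX0 y hy r hr) hb.le
            · rw [div_le_one hb]; exact hXb y hy r hr
        _ = (Fintype.piFinset t).card + 2 / b * ∑ r ∈ Fintype.piFinset t, X y r := by
            rw [Finset.sum_add_distrib, Finset.sum_const, nsmul_eq_mul, mul_one, Finset.mul_sum]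
            congr 1
            refine Finset.sum_congr rfl (fun r _ => ?_)
            ring
        _ ≤ (Fintype.piFinset t).card + 2 / b * ((Fintype.piFinset t).card * μ y) := by
            have h3 : 2 / b * ∑ r ∈ Fintype.piFinset t, X y r ≤
                2 / b * ((Fintype.piFinset t).card * μ y) :=
              mul_le_mul_of_nonneg_left (hμ y hy) (by positivity)
            linarith
        _ = (Fintype.piFinset t).card * (2 * μ y / b + 1) := by ring
        _ ≤ _ := mul_le_mul_of_nonneg_left (Real.add_one_le_exp _) hpos.le)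
  -- Markov
  have h2 : (((Fintype.piFinset t).filter
      (fun r => 2 * ∑ y ∈ Y, μ y + T * b < ∑ y ∈ Y, X y r)).card : ℝ) *
      Real.exp ((2 * ∑ y ∈ Y, μ y + T * b) / b) ≤
      ∑ r ∈ Fintype.piFinset t, ∏ y ∈ Y, Real.exp (X y r / b) := by
    calc (((Fintype.piFinset t).filter
      (fun r => 2 * ∑ y ∈ Y, μ y + T * b < ∑ y ∈ Y, X y r)).card : ℝ) *
      Real.exp ((2 * ∑ y ∈ Y, μ y + T * b) / b)
        = ∑ r ∈ (Fintype.piFinset t).filter
            (fun r => 2 * ∑ y ∈ Y, μ y + T * b < ∑ y ∈ Y, X y r),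
            Real.exp ((2 * ∑ y ∈ Y, μ y + T * b) / b) := by
          rw [Finset.sum_const, nsmul_eq_mul]
      _ ≤ ∑ r ∈ (Fintype.piFinset t).filter
            (fun r => 2 * ∑ y ∈ Y, μ y + T * b < ∑ y ∈ Y, X y r),
            ∏ y ∈ Y, Real.exp (X y r / b) := by
          refine Finset.sum_le_sum (fun r hr => ?_)
          rw [← Real.exp_sum, ← Finset.sum_div]
          apply Real.exp_le_exp.2
          exact div_le_div_of_nonneg_right ((mem_filter.1 hr).2.le) hb.le
      _ ≤ _ := Finset.sum_le_sum_of_subset_of_nonneg (Finset.filter_subset _ _)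
          (fun r _ _ => Finset.prod_nonneg (fun y _ => (Real.exp_pos _).le))
  have h4 : ∏ y ∈ Y, Real.exp (2 * μ y / b) = Real.exp ((2 * ∑ y ∈ Y, μ y) / b) := by
    rw [← Real.exp_sum, ← Finset.sum_div, Finset.mul_sum]
  have h5 : Real.exp ((2 * ∑ y ∈ Y, μ y + T * b) / b) =
      Real.exp ((2 * ∑ y ∈ Y, μ y) / b) * Real.exp T := by
    rw [← Real.exp_add]
    congr 1
    field_simp
  rw [h4] at h1
  rw [h5] at h2
  have h6 := h2.trans h1
  have hE := Real.exp_pos ((2 * ∑ y ∈ Y, μ y) / b)
  rw [Real.exp_neg]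
  have h7 : (((Fintype.piFinset t).filter
      (fun r => 2 * ∑ y ∈ Y, μ y + T * b < ∑ y ∈ Y, X y r)).card : ℝ) * Real.exp T ≤
      (Fintype.piFinset t).card := by
    refine le_of_mul_le_mul_right ?_ hE
    calc _ = (((Fintype.piFinset t).filter
      (fun r => 2 * ∑ y ∈ Y, μ y + T * b < ∑ y ∈ Y, X y r)).card : ℝ) *
        (Real.exp ((2 * ∑ y ∈ Y, μ y) / b) * Real.exp T) := by ring
      _ ≤ _ := h6
  rw [← div_eq_mul_inv, le_div_iff₀ (Real.exp_pos T)]
  exact h7

/-- conditioning on the keys of `K₀`: a bound for all fibres gives a bound -/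
theorem cond_card (t : κ → Finset ℕ) (K₀ : Finset κ) (P : (κ → ℕ) → Prop) [DecidablePred P]
    (ε : ℝ)
    (h : ∀ r₀ ∈ Fintype.piFinset t,
      (((Fintype.piFinset (fun k => if k ∈ K₀ then {r₀ k} else t k)).filter P).card : ℝ) ≤
        (Fintype.piFinset (fun k => if k ∈ K₀ then {r₀ k} else t k)).card * ε) :
    (((Fintype.piFinset t).filter P).card : ℝ) ≤ (Fintype.piFinset t).card * ε := by
  classical
  have hfib : ∀ r₀ ∈ Fintype.piFinset t,
      (Fintype.piFinset t).filter (fun r => mix K₀ r 0 = mix K₀ r₀ 0) =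
        Fintype.piFinset (fun k => if k ∈ K₀ then {r₀ k} else t k) := by
    intro r₀ hr₀
    ext r
    rw [mem_filter, Fintype.mem_piFinset, Fintype.mem_piFinset]
    constructor
    · rintro ⟨h1, h2⟩ k
      by_cases hk : k ∈ K₀
      · rw [if_pos hk, mem_singleton]
        have h3 := congrFun h2 k
        simp only [mix, if_pos hk] at h3
        exact h3
      · rw [if_neg hk]; exact h1 k
    · intro h1
      rw [Fintype.mem_piFinset] at hr₀
      constructor
      · intro k
        have h2 := h1 k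
        by_cases hk : k ∈ K₀
        · rw [if_pos hk, mem_singleton] at h2
          rw [h2]; exact hr₀ k
        · rw [if_neg hk] at h2; exact h2
      · funext k
        have h2 := h1 k
        by_cases hk : k ∈ K₀
        · rw [if_pos hk, mem_singleton] at h2
          simp only [mix, if_pos hk, h2]
        · simp only [mix, if_neg hk]
  set I := (Fintype.piFinset t).image (fun r => mix K₀ r 0) with hI
  have e1 : (Fintype.piFinset t).card =
      ∑ v ∈ I, ((Fintype.piFinset t).filter (fun r => mix K₀ r 0 = v)).card :=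
    Finset.card_eq_sum_card_fiberwise (fun r hr => mem_coe.2 (mem_image_of_mem _ hr))
  have e2 : ((Fintype.piFinset t).filter P).card =
      ∑ v ∈ I, (((Fintype.piFinset t).filter P).filter (fun r => mix K₀ r 0 = v)).card :=
    Finset.card_eq_sum_card_fiberwise (fun r hr => mem_coe.2
      (mem_image_of_mem _ (mem_of_mem_filter _ (mem_coe.1 hr))))
  rw [e1, e2]
  push_cast
  rw [Finset.sum_mul]
  refine Finset.sum_le_sum (fun v hv => ?_)
  rw [hI, mem_image] at hv
  obtain ⟨r₀, hr₀, rfl⟩ := hv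
  rw [Finset.filter_filter]
  have h3 : (Fintype.piFinset t).filter (fun r => P r ∧ mix K₀ r 0 = mix K₀ r₀ 0) =
      ((Fintype.piFinset t).filter (fun r => mix K₀ r 0 = mix K₀ r₀ 0)).filter P := by
    rw [Finset.filter_filter]
    refine Finset.filter_congr (fun r _ => ?_)
    exact and_comm
  rw [h3, hfib r₀ hr₀]
  exact h r₀ hr₀

end Pool.Agent.Helper41.T5
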