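import Pool.Agent.Helper45.T5.RegWin
import Pool.Agent.Helper87.L3.Count

/-!
# Windows which depend on the label (outer keys)

`tripD` : triples `(i, b, b')` with `b ∈ U i`, `b' ∈ U' i`; the bound of `trip_card` holds if all
`U i`, `U' i` are regular with the same constants.  `reg_outer` : regularity for all outer keys.
-/

set_option autoImplicit false

namespace Pool.Agent.Helper41.T5

open Finset Pool.Agent.Helper27.T4 Pool.Agent.Helper29.T4 Pool.Agent.Helper22.HW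
  Pool.Agent.Helper22.SL Pool.Agent.Helper87.L3

variable {γ : Type*} [DecidableEq γ]

/-- triples with windows and intervals which depend on the label -/
def tripD (I : Finset γ) (U U' : γ → Finset ℕ) (cl t : γ → ℕ) (q h A : ℕ) :
    Finset (γ × (ℕ × ℕ)) := I.biUnion (fun i => trip {i} (U i) (U' i) cl q h (t i) A)

theorem mem_tripD (I : Finset γ) (U U' : γ → Finset ℕ) (cl t : γ → ℕ) (q h A : ℕ)
    (z : γ × (ℕ × ℕ)) : z ∈ tripD I U U' cl t q h A ↔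
      z.1 ∈ I ∧ z.2.1 ∈ U z.1 ∧ z.2.2 ∈ U' z.1 ∧
        (t z.1 ≤ q * z.2.1 + z.2.2 ∧ q * z.2.1 + z.2.2 < t z.1 + A) ∧
        q * z.2.1 + z.2.2 ≡ cl z.1 [MOD h] := by
  rw [tripD, mem_biUnion]
  constructor
  · rintro ⟨i, hi, hz⟩
    rw [trip, mem_filter, mem_product, mem_product, mem_singleton] at hz
    obtain ⟨⟨h1, h2, h3⟩, h4, h5⟩ := hz
    rw [h1] at h5 ⊢
    exact ⟨hi, h2, h3, h4, h5⟩
  · rintro ⟨h1, h2, h3, h4, h5⟩
    refine ⟨z.1, h1, ?_⟩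
    rw [trip, mem_filter, mem_product, mem_product, mem_singleton]
    exact ⟨⟨rfl, h2, h3⟩, h4, h5⟩

/-- **The number of triples, windows depending on the label.** -/
theorem tripD_card (I : Finset γ) (U U' : γ → Finset ℕ) (cl t : γ → ℕ) (q h A B' : ℕ)
    (hq : 0 < q) (hh : 0 < h) (hB : ∀ i ∈ I, ∀ u ∈ U' i, u < B') (ρ ρ' w w' : ℝ) (hρ : 0 ≤ ρ)
    (hU : ∀ i ∈ I, ∀ a L : ℕ, ((arc (U i) a L).card : ℝ) ≤ ρ * (1 + L / w)) (hw : 0 < w)
    (hU' : ∀ i ∈ I, ∀ a L c : ℕ, ((arcc (U' i) a L c h).card : ℝ) ≤ ρ' * (1 + L / (h * w')))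
    (hw' : 0 < w') (hρ' : 0 ≤ ρ') :
    ((tripD I U U' cl t q h A).card : ℝ) ≤
      I.card * (ρ * (1 + (((A : ℝ) + B') / q + 2) / w)) *
        (ρ' * (1 + (min A B' : ℕ) / (h * w'))) := by
  have h1 : ((tripD I U U' cl t q h A).card : ℝ) ≤
      ∑ i ∈ I, ((trip {i} (U i) (U' i) cl q h (t i) A).card : ℝ) := by
    have := card_biUnion_le (s := I) (t := fun i => trip {i} (U i) (U' i) cl q h (t i) A)
    exact_mod_cast this
  refine h1.trans ?_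
  have h2 : ∀ i ∈ I, ((trip {i} (U i) (U' i) cl q h (t i) A).card : ℝ) ≤
      (ρ * (1 + (((A : ℝ) + B') / q + 2) / w)) * (ρ' * (1 + (min A B' : ℕ) / (h * w'))) := by
    intro i hi
    have h3 := trip_card {i} (U i) (U' i) cl q h (t i) A B' hq hh (hB i hi) ρ ρ' w w' hρ
      (hU i hi) hw (hU' i hi) hw' hρ'
    rw [card_singleton, Nat.cast_one, one_mul] at h3
    exact h3
  refine (sum_le_sum h2).trans ?_
  rw [sum_const, nsmul_eq_mul]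
  exact le_of_eq (by ring)

section outer

variable {κ : Type*} [DecidableEq κ] {p : Fin 3 → ℕ} {Mk : κ → ℕ}

/-- **Regularity for all outer keys.** -/
theorem reg_outer {ω : Type*} (hp : ∀ i, (p i).Prime) (hp2 : ∀ i, p i ≠ 2)
    (hinj : Function.Injective p) (O : Finset ω) (S : ω → Side p κ)
    (hS : ∀ o ∈ O, (S o).Ok rk3 Mk) (e : Fin 3 → ℕ) (hSe : ∀ o ∈ O, (S o).e = e)
    (U : Fin 3 → Finset ℕ) (K : Finset κ)
    (hU : ∀ i, Pool.Agent.Helper73.T5.SFam (p i) (e i) (U i))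
    (hK : ∀ o ∈ O, ∀ i, ∀ y ∈ Fintype.piFinset U, (S o).key i y ∈ K)
    (Y : Finset (Fin 3 → ℕ)) (hY : Y ⊆ Fintype.piFinset U) (E0 : ℕ) (he : 1 ≤ E0)
    (sF : p 0 ^ e 0 ≤ E0 * (p 1 ^ e 1 * p 2 ^ e 2))
    (s1 : p 1 ^ e 1 ≤ E0 * (p 0 ^ e 0 * p 2 ^ e 2))
    (s2 : p 2 ^ e 2 ≤ E0 * (p 0 ^ e 0 * p 1 ^ e 1)) {T : ℝ} (hT : 1 ≤ T)
    (S0 : ω → ℕ) (Zm : ℕ) (hS0 : ∀ o ∈ O, 0 < S0 o) (B : ω → (κ → ℕ) → Finset ℕ)
    (hB : ∀ o ∈ O, ∀ w, ∀ b ∈ B o w, ∃ y ∈ Y, ∃ z < Zm,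
      b = S0 o * ((S o).cd hp hinj w y / (S o).F) + NN p e * z) :
    PrG Mk K (fun w => ∃ o ∈ O, ¬ Pool.Agent.Helper45.T5.RegSet (B o w) (NN p e)
      (2 * Zm * (68 * (T * ((p 1 : ℝ) + p 2) ^ 2 * E0 ^ 2))) (Real.sqrt (NN p e)))
      (O.card * (2 * ((NN p e : ℝ) + 1) ^ 4 * Real.exp (-T))) := by
  have h1 : ∀ o ∈ O, PrG Mk K (fun w => ¬ Pool.Agent.Helper45.T5.RegSet (B o w) (NN p e)
      (2 * Zm * (68 * (T * ((p 1 : ℝ) + p 2) ^ 2 * E0 ^ 2))) (Real.sqrt (NN p e)))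
      (2 * ((NN p e : ℝ) + 1) ^ 4 * Real.exp (-T)) := by
    intro o ho
    have hs := hSe o ho
    subst hs
    exact Pool.Agent.Helper45.T5.reg_win hp hp2 hinj (S o) (hS o ho) U K hU (hK o ho) Y hY E0 he
      sF s1 s2 hT (hS0 o ho) (B o) (hB o ho)
  have h2 := PrG_exists (Mk := Mk) (K := K) O h1
  rw [sum_const, nsmul_eq_mul] at h2
  exact h2

end outer

end Pool.Agent.Helper41.T5
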