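import Mathlib

/-!
# The spike bound of a static level

`G` : pairs `(y₁, y₂)` of members of the families `1`, `2` (the member of the family `F` and all
hash values being fixed) whose code `ρ` lies in an arithmetic progression (arc of length `A`, class
modulo `h`) and in a fixed class modulo `Q_F`.  If the differences of the components `L₁`, `L₂` have
at most `C₀` representations, then `|G| ≤ (C₀ + 1)^2 (1 + sqrt (A / (h Q_F)))`, whatever the hash
values are.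
-/

namespace Pool.Agent.Helper41.T5

open Finset

/-- numbers of an interval which are congruent to each other -/
theorem ap_card (F : Finset ℕ) (a A m : ℕ) (h1 : ∀ x ∈ F, a ≤ x ∧ x < a + A)
    (h2 : ∀ x ∈ F, ∀ x' ∈ F, x ≡ x' [MOD m]) : F.card ≤ A / m + 1 := by
  have h3 : F.card ≤ (range (A / m + 1)).card := by
    refine card_le_card_of_injOn (fun x => (x - a) / m) ?_ ?_
    · intro x hx
      rw [mem_coe, mem_range]
      have := h1 x hx
      exact Nat.lt_succ_of_le (Nat.div_le_div_right (by omega))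
    · intro x hx x' hx' hxx
      simp only at hxx
      have e1 := h1 x hx
      have e2 := h1 x' hx'
      have e3 : x - a ≡ x' - a [MOD m] := by
        have h4 : (x - a) + a ≡ (x' - a) + a [MOD m] := by
          rw [Nat.sub_add_cancel e1.1, Nat.sub_add_cancel e2.1]
          exact h2 x hx x' hx'
        exact Nat.ModEq.add_right_cancel' a h4
      have e4 : x - a = x' - a := by
        have e5 := Nat.mod_add_div (x - a) m
        have e6 := Nat.mod_add_div (x' - a) m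
        rw [e3, hxx] at e5
        omega
      omega
  rwa [card_range] at h3

/-- multiples of `m` in `(-A, A)` -/
theorem diff_card (D : Finset ℤ) (A m : ℕ) (hm : 0 < m)
    (h1 : ∀ x ∈ D, -(A : ℤ) < x ∧ x < A) (h2 : ∀ x ∈ D, (m : ℤ) ∣ x) :
    D.card ≤ 2 * (A / m) + 1 := by
  have h3 : D.card ≤ (Finset.Icc (-((A / m : ℕ) : ℤ)) ((A / m : ℕ) : ℤ)).card := by
    refine card_le_card_of_injOn (fun x => x / (m : ℤ)) ?_ ?_
    · intro x hx
      rw [mem_coe, mem_Icc]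
      obtain ⟨y, rfl⟩ := h2 x hx
      have hm' : (0 : ℤ) < m := by exact_mod_cast hm
      have e1 := h1 _ hx
      simp only
      rw [Int.mul_ediv_cancel_left _ hm'.ne']
      have e2 : ((A / m : ℕ) : ℤ) = (A : ℤ) / m := by push_cast; rfl
      rw [e2]
      constructor
      · have : -y ≤ (A : ℤ) / m := by
          rw [Int.le_ediv_iff_mul_le hm']
          nlinarith
        linarith
      · rw [Int.le_ediv_iff_mul_le hm']
        nlinarith
    · intro x hx x' hx' hxx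
      simp only at hxx
      rw [← Int.ediv_mul_cancel (h2 x hx), ← Int.ediv_mul_cancel (h2 x' hx'), hxx]
  rw [Int.card_Icc] at h3
  have : ((A / m : ℕ) : ℤ) + 1 - -((A / m : ℕ) : ℤ) = ((2 * (A / m) + 1 : ℕ) : ℤ) := by
    push_cast; ring
  rw [this, Int.toNat_natCast] at h3
  exact h3

/-- representations of the differences -/
def DifLe {Q : ℕ} (L : ℕ → ZMod Q) (Y : Finset ℕ) (C₀ : ℕ) : Prop :=
  ∀ δ : ZMod Q, (((Y ×ˢ Y).filter (fun z => z.1 ≠ z.2 ∧ L z.1 - L z.2 = δ))).card ≤ C₀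

theorem spike_sq {Q₁ Q₂ : ℕ} (QF h a A C₀ : ℕ) (hh : 0 < h) (hF : 0 < QF)
    (c1 : h.Coprime QF) (c2 : (h * QF).Coprime Q₁) (hA : A ≤ h * QF * Q₁)
    (Y₁ Y₂ : Finset ℕ) (L₁ : ℕ → ZMod Q₁) (L₂ : ℕ → ZMod Q₂) (s₁ : ZMod Q₁) (s₂ : ℕ → ZMod Q₂)
    (d1 : DifLe L₁ Y₁ C₀) (d2 : DifLe L₂ Y₂ C₀)
    (G : Finset (ℕ × ℕ)) (hG : G ⊆ Y₁ ×ˢ Y₂) (ρ : ℕ × ℕ → ℕ)
    (g1 : ∀ g ∈ G, a ≤ ρ g ∧ ρ g < a + A)
    (g2 : ∀ g ∈ G, ∀ g' ∈ G, ρ g ≡ ρ g' [MOD h])
    (g3 : ∀ g ∈ G, ∀ g' ∈ G, ρ g ≡ ρ g' [MOD QF])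
    (g4 : ∀ g ∈ G, ((ρ g : ℕ) : ZMod Q₁) = L₁ g.1 + s₁)
    (g5 : ∀ g ∈ G, ((ρ g : ℕ) : ZMod Q₂) = L₂ g.2 + s₂ g.1) :
    G.card ^ 2 ≤ (C₀ + 1) * G.card + (2 * (A / (h * QF)) + 1) * (C₀ * (C₀ + 1) ^ 2) := by
  classical
  have hhF : 0 < h * QF := Nat.mul_pos hh hF
  -- the fibres over `y₁`
  have fib : ∀ y, (G.filter (fun g => g.1 = y)).card ≤ C₀ + 1 := by
    intro y
    rcases (G.filter (fun g => g.1 = y)).eq_empty_or_nonempty with he | ⟨g₀, hg₀⟩
    · rw [he, card_empty]; omega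
    · rw [mem_filter] at hg₀
      have e1 : ((G.filter (fun g => g.1 = y)).erase g₀).card ≤
          ((Y₂ ×ˢ Y₂).filter (fun z => z.1 ≠ z.2 ∧ L₂ z.1 - L₂ z.2 = 0)).card := by
        refine card_le_card_of_injOn (fun g => (g.2, g₀.2)) ?_ ?_
        · intro g hg
          rw [mem_coe, mem_erase, mem_filter] at hg
          obtain ⟨hne, hgG, hgy⟩ := hg
          rw [mem_coe, mem_filter, mem_product]
          have m1 := mem_product.1 (hG hgG)
          have m2 := mem_product.1 (hG hg₀.1)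
          refine ⟨⟨m1.2, m2.2⟩, ?_, ?_⟩
          · intro heq
            exact hne (Prod.ext (hgy.trans hg₀.2.symm) heq)
          · have q1 : ρ g ≡ ρ g₀ [MOD h * QF] :=
              (Nat.modEq_and_modEq_iff_modEq_mul c1).1 ⟨g2 g hgG g₀ hg₀.1, g3 g hgG g₀ hg₀.1⟩
            have q2 : ρ g ≡ ρ g₀ [MOD Q₁] := by
              rw [← ZMod.natCast_eq_natCast_iff, g4 g hgG, g4 g₀ hg₀.1, hgy, hg₀.2]
            have q3 : ρ g ≡ ρ g₀ [MOD h * QF * Q₁] :=
              (Nat.modEq_and_modEq_iff_modEq_mul c2).1 ⟨q1, q2⟩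
            have b1 := g1 g hgG
            have b2 := g1 g₀ hg₀.1
            have q4 : ρ g = ρ g₀ := by
              have q5 : (ρ g - a) ≡ (ρ g₀ - a) [MOD h * QF * Q₁] := by
                have q6 : (ρ g - a) + a ≡ (ρ g₀ - a) + a [MOD h * QF * Q₁] := by
                  rw [Nat.sub_add_cancel b1.1, Nat.sub_add_cancel b2.1]
                  exact q3
                exact Nat.ModEq.add_right_cancel' a q6
              have q7 := Nat.ModEq.eq_of_lt_of_lt q5 (by omega) (by omega)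
              omega
            have q8 := g5 g hgG
            have q9 := g5 g₀ hg₀.1
            rw [q4, q9, hgy, hg₀.2] at q8
            have q10 := add_right_cancel q8
            simp only
            rw [q10, sub_self]
        · intro g hg g' hg' hgg
          rw [mem_coe, mem_erase, mem_filter] at hg hg'
          exact Prod.ext (hg.2.2.trans hg'.2.2.symm) (congrArg Prod.fst hgg)
      have e2 := e1.trans (d2 0)
      rw [card_erase_of_mem (mem_filter.2 hg₀)] at e2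
      omega
  -- pairs with equal first members
  have same : ((G ×ˢ G).filter (fun z => z.1.1 = z.2.1)).card ≤ (C₀ + 1) * G.card := by
    rw [mul_comm, ← smul_eq_mul]
    have e1 : ((G ×ˢ G).filter (fun z => z.1.1 = z.2.1)) =
        G.biUnion (fun g => (G.filter (fun g' => g'.1 = g.1)).image (fun g' => (g, g'))) := by
      ext z
      rw [mem_filter, mem_product, mem_biUnion]
      constructor
      · rintro ⟨⟨h1, h2⟩, h3⟩
        exact ⟨z.1, h1, mem_image.2 ⟨z.2, mem_filter.2 ⟨h2, h3.symm⟩, rfl⟩⟩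
      · rintro ⟨g, hg, hz⟩
        rw [mem_image] at hz
        obtain ⟨g', hg', rfl⟩ := hz
        rw [mem_filter] at hg'
        exact ⟨⟨hg, hg'.1⟩, hg'.2.symm⟩
    rw [e1]
    refine (card_biUnion_le).trans ?_
    refine Finset.sum_le_card_nsmul _ _ _ (fun g _ => ?_)
    exact card_image_le.trans (fib g.1)
  -- pairs with different first members
  set H := (G ×ˢ G).filter (fun z => ¬ z.1.1 = z.2.1) with hH
  have diff : H.card ≤ (2 * (A / (h * QF)) + 1) * (C₀ * (C₀ + 1) ^ 2) := by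
    set dl : (ℕ × ℕ) × (ℕ × ℕ) → ℤ := fun z => (ρ z.1 : ℤ) - (ρ z.2 : ℤ) with hdl
    have e1 : (H.image dl).card ≤ 2 * (A / (h * QF)) + 1 := by
      refine diff_card _ A (h * QF) hhF ?_ ?_
      · intro x hx
        rw [mem_image] at hx
        obtain ⟨z, hz, rfl⟩ := hx
        rw [hH, mem_filter, mem_product] at hz
        have b1 := g1 _ hz.1.1
        have b2 := g1 _ hz.1.2
        simp only [hdl]
        constructor <;> omega
      · intro x hx
        rw [mem_image] at hx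
        obtain ⟨z, hz, rfl⟩ := hx
        rw [hH, mem_filter, mem_product] at hz
        have q1 : ρ z.1 ≡ ρ z.2 [MOD h * QF] :=
          (Nat.modEq_and_modEq_iff_modEq_mul c1).1
            ⟨g2 _ hz.1.1 _ hz.1.2, g3 _ hz.1.1 _ hz.1.2⟩
        exact (Nat.modEq_iff_dvd.1 q1.symm)
    have e2 : ∀ δ ∈ H.image dl, (H.filter (fun z => dl z = δ)).card ≤ C₀ * (C₀ + 1) ^ 2 := by
      intro δ _
      set H' := H.filter (fun z => dl z = δ) with hH'
      have f1 : (H'.image (fun z => (z.1.1, z.2.1))).card ≤ C₀ := by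
        refine le_trans (card_le_card ?_) (d1 ((δ : ℤ) : ZMod Q₁))
        intro w hw
        rw [mem_image] at hw
        obtain ⟨z, hz, rfl⟩ := hw
        rw [hH', mem_filter, hH, mem_filter, mem_product] at hz
        obtain ⟨⟨⟨z1, z2⟩, z3⟩, z4⟩ := hz
        rw [mem_filter, mem_product]
        refine ⟨⟨(mem_product.1 (hG z1)).1, (mem_product.1 (hG z2)).1⟩, z3, ?_⟩
        have q1 := g4 _ z1
        have q2 := g4 _ z2
        have q3 : (((dl z : ℤ)) : ZMod Q₁) = δ := by rw [z4]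
        simp only [hdl] at q3
        push_cast at q3
        rw [q1, q2] at q3
        rw [← q3]
        ring
      have f2 : ∀ w ∈ H'.image (fun z => (z.1.1, z.2.1)),
          (H'.filter (fun z => (z.1.1, z.2.1) = w)).card ≤ (C₀ + 1) ^ 2 := by
        intro w _
        have f3 : H'.filter (fun z => (z.1.1, z.2.1) = w) ⊆
            (G.filter (fun g => g.1 = w.1)) ×ˢ (G.filter (fun g => g.1 = w.2)) := by
          intro z hz
          rw [mem_filter, hH', mem_filter, hH, mem_filter, mem_product] at hz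
          obtain ⟨⟨⟨⟨z1, z2⟩, _⟩, _⟩, z5⟩ := hz
          rw [mem_product, mem_filter, mem_filter]
          exact ⟨⟨z1, (Prod.ext_iff.1 z5).1⟩, ⟨z2, (Prod.ext_iff.1 z5).2⟩⟩
        refine (card_le_card f3).trans ?_
        rw [card_product, sq]
        exact Nat.mul_le_mul (fib _) (fib _)
      calc H'.card ≤ (C₀ + 1) ^ 2 * (H'.image (fun z => (z.1.1, z.2.1))).card :=
            card_le_mul_card_image _ _ (fun w hw => f2 w hw)
        _ ≤ (C₀ + 1) ^ 2 * C₀ := Nat.mul_le_mul_left _ f1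
        _ = _ := mul_comm _ _
    calc H.card ≤ (C₀ * (C₀ + 1) ^ 2) * (H.image dl).card :=
          card_le_mul_card_image _ _ (fun δ hδ => e2 δ hδ)
      _ ≤ (C₀ * (C₀ + 1) ^ 2) * (2 * (A / (h * QF)) + 1) := Nat.mul_le_mul_left _ e1
      _ = _ := mul_comm _ _
  have tot : G.card ^ 2 = ((G ×ˢ G).filter (fun z => z.1.1 = z.2.1)).card + H.card := by
    rw [hH, Finset.card_filter_add_card_filter_not, card_product, sq]
  rw [tot]
  exact Nat.add_le_add same diff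

theorem quad_le (N c x : ℝ) (C : ℝ) (hC : 0 ≤ C) (hc : c = C + 1) (hx : 0 ≤ x)
    (h : N ^ 2 ≤ c * N + (2 * x + 1) * (C * c ^ 2)) : N ≤ c ^ 2 * (1 + Real.sqrt x) := by
  set s := Real.sqrt x with hs
  have hs0 : 0 ≤ s := Real.sqrt_nonneg _
  have hs2 : s ^ 2 = x := Real.sq_sqrt hx
  by_contra hneg
  push Not at hneg
  have hc1 : 1 ≤ c := by rw [hc]; linarith
  set R := c ^ 2 * (1 + s) with hR
  have hR0 : 0 < R := by positivity
  have hRc : c ≤ R := by
    rw [hR]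
    nlinarith [mul_nonneg (sq_nonneg c) hs0]
  have h1 : R * (R - c) < N * (N - c) := by
    have h2 : R * (R - c) ≤ R * (N - c) := mul_le_mul_of_nonneg_left (by linarith) hR0.le
    have h3 : R * (N - c) < N * (N - c) := mul_lt_mul_of_pos_right hneg (by linarith)
    linarith
  have h4 : N * (N - c) ≤ (2 * x + 1) * (C * c ^ 2) := by nlinarith
  have h5 : (2 * x + 1) * (C * c ^ 2) ≤ R * (R - c) := by
    have h6 : R * (R - c) = c ^ 2 * (c * ((1 + s) * (C + c * s))) := by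
      rw [hR, hc]; ring
    rw [h6, ← hs2]
    have h7 : (2 * s ^ 2 + 1) * C ≤ c * ((1 + s) * (C + c * s)) := by
      have h8 : (1 + s) * (C + c * s) = C + C * s + c * s + c * s ^ 2 := by ring
      have h9 : 0 ≤ C * s := mul_nonneg hC hs0
      have h10 : 0 ≤ c * s := mul_nonneg (by linarith) hs0
      have h11 : C ≤ c * C := by nlinarith
      have h12 : 2 * C ≤ c * c := by rw [hc]; nlinarith [sq_nonneg C]
      have h13 : 2 * C * s ^ 2 ≤ c * c * s ^ 2 := mul_le_mul_of_nonneg_right h12 (sq_nonneg s)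
      rw [h8]
      nlinarith [mul_nonneg (by linarith : (0:ℝ) ≤ c) h9, mul_nonneg (by linarith : (0:ℝ) ≤ c) h10]
    calc (2 * s ^ 2 + 1) * (C * c ^ 2) = c ^ 2 * ((2 * s ^ 2 + 1) * C) := by ring
      _ ≤ _ := mul_le_mul_of_nonneg_left h7 (sq_nonneg c)
  linarith

/-- **Spike bound.** -/
theorem spike_le {Q₁ Q₂ : ℕ} (QF h a A C₀ : ℕ) (hh : 0 < h) (hF : 0 < QF)
    (c1 : h.Coprime QF) (c2 : (h * QF).Coprime Q₁) (hA : A ≤ h * QF * Q₁)
    (Y₁ Y₂ : Finset ℕ) (L₁ : ℕ → ZMod Q₁) (L₂ : ℕ → ZMod Q₂) (s₁ : ZMod Q₁) (s₂ : ℕ → ZMod Q₂)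
    (d1 : DifLe L₁ Y₁ C₀) (d2 : DifLe L₂ Y₂ C₀)
    (G : Finset (ℕ × ℕ)) (hG : G ⊆ Y₁ ×ˢ Y₂) (ρ : ℕ × ℕ → ℕ)
    (g1 : ∀ g ∈ G, a ≤ ρ g ∧ ρ g < a + A)
    (g2 : ∀ g ∈ G, ∀ g' ∈ G, ρ g ≡ ρ g' [MOD h])
    (g3 : ∀ g ∈ G, ∀ g' ∈ G, ρ g ≡ ρ g' [MOD QF])
    (g4 : ∀ g ∈ G, ((ρ g : ℕ) : ZMod Q₁) = L₁ g.1 + s₁)
    (g5 : ∀ g ∈ G, ((ρ g : ℕ) : ZMod Q₂) = L₂ g.2 + s₂ g.1) :
    (G.card : ℝ) ≤ ((C₀ : ℝ) + 1) ^ 2 * (1 + Real.sqrt ((A : ℝ) / ((h : ℝ) * QF))) := by
  have h1 := spike_sq QF h a A C₀ hh hF c1 c2 hA Y₁ Y₂ L₁ L₂ s₁ s₂ d1 d2 G hG ρ g1 g2 g3 g4 g5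
  have h2 : ((G.card ^ 2 : ℕ) : ℝ) ≤
      (((C₀ + 1) * G.card + (2 * (A / (h * QF)) + 1) * (C₀ * (C₀ + 1) ^ 2) : ℕ) : ℝ) := by
    exact_mod_cast h1
  push_cast at h2
  have h3 : ((A / (h * QF) : ℕ) : ℝ) ≤ (A : ℝ) / ((h : ℝ) * QF) := by
    have := @Nat.cast_div_le ℝ _ _ _ A (h * QF)
    push_cast at this
    exact this
  refine quad_le (G.card : ℝ) ((C₀ : ℝ) + 1) _ (C₀ : ℝ) (Nat.cast_nonneg _) rfl (by positivity) ?_
  refine h2.trans ?_
  have h4 : (0 : ℝ) ≤ (C₀ : ℝ) * ((C₀ : ℝ) + 1) ^ 2 := by positivity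
  have h5 : (2 * ((A / (h * QF) : ℕ) : ℝ) + 1) * ((C₀ : ℝ) * ((C₀ : ℝ) + 1) ^ 2) ≤
      (2 * ((A : ℝ) / ((h : ℝ) * QF)) + 1) * ((C₀ : ℝ) * ((C₀ : ℝ) + 1) ^ 2) :=
    mul_le_mul_of_nonneg_right (by linarith) h4
  linarith

end Pool.Agent.Helper41.T5
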