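import Pool.Agent.Helper41.T5.Chern
import Pool.Agent.Helper41.T5.Spike

/-!
# Regularity of a static level

`Lev` : three families `F, 1, 2`, the codes `rho r y_F y_1 y_2 < Q = Q_F Q_1 Q_2`, where
`rho = c_F r y_F mod Q_F`, `= L_1 (y_1) + u_1 r (k1 y_F) mod Q_1`,
`= L_2 (y_2) + u_2 r (k2 y_F y_1) mod Q_2`, `r` being the random keys.

`Lev.Ok.regular`: off an event of probability `2 (Q + 1)^4 exp (-T)`, for ALL arcs of length `A`
and ALL classes modulo `h` (`h` coprime to `Q`) the number of `y` whose code lies in the arc and in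
the class is at most `68 (C₀ + 1)^2 E₀^2 T (1 + A / (h sqrt Q))`.  Sizes: `Q_F, Q_1, Q_2 ≤ sqrt (E₀ Q)`.
-/

namespace Pool.Agent.Helper41.T5

open Finset

/-- probability of prescribed values -/
theorem pin_pi {κ : Type*} [Fintype κ] [DecidableEq κ] (t : κ → Finset ℕ) (K : Finset κ)
    (v : κ → ℕ) :
    ((Fintype.piFinset t).filter (fun r => ∀ k ∈ K, r k = v k)).card * ∏ k ∈ K, (t k).card ≤
      (Fintype.piFinset t).card := by
  have h1 : ((Fintype.piFinset t).filter (fun r => ∀ k ∈ K, r k = v k)).card ≤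
      ∏ k ∈ Finset.univ \ K, (t k).card := by
    have h2 : ((Fintype.piFinset t).filter (fun r => ∀ k ∈ K, r k = v k)) ⊆
        Fintype.piFinset (fun k => if k ∈ K then {v k} else t k) := by
      intro r hr
      rw [Finset.mem_filter, Fintype.mem_piFinset] at hr
      rw [Fintype.mem_piFinset]
      intro k
      by_cases hk : k ∈ K
      · rw [if_pos hk, Finset.mem_singleton]
        exact hr.2 k hk
      · rw [if_neg hk]
        exact hr.1 k
    refine (Finset.card_le_card h2).trans ?_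
    rw [Fintype.card_piFinset]
    rw [← Finset.prod_sdiff (Finset.subset_univ K)]
    have h3 : ∏ x ∈ K, (if x ∈ K then ({v x} : Finset ℕ) else t x).card = 1 := by
      apply Finset.prod_eq_one
      intro x hx
      rw [if_pos hx, Finset.card_singleton]
    rw [h3, mul_one]
    apply le_of_eq
    apply Finset.prod_congr rfl
    intro x hx
    rw [if_neg (Finset.mem_sdiff.mp hx).2]
  rw [Fintype.card_piFinset, ← Finset.prod_sdiff (Finset.subset_univ K)]
  exact Nat.mul_le_mul_right _ h1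

/-- one key: an event which leaves at most `n` values for the key `k` -/
theorem one_key {κ : Type*} [Fintype κ] [DecidableEq κ] (t : κ → Finset ℕ) (k : κ) (n : ℕ)
    (E : Finset (κ → ℕ)) (hE : E ⊆ Fintype.piFinset t) (V : Finset ℕ) (hV : V.card ≤ n)
    (hk : ∀ r ∈ E, r k ∈ V) : E.card * (t k).card ≤ n * (Fintype.piFinset t).card := by
  have key : ∀ v ∈ V, (E.filter (fun r => r k = v)).card * (t k).card ≤
      (Fintype.piFinset t).card := by
    intro v _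
    have h1 := pin_pi t {k} (fun _ => v)
    rw [Finset.prod_singleton] at h1
    refine le_trans (Nat.mul_le_mul_right _ (card_le_card ?_)) h1
    intro r hr
    rw [mem_filter] at hr ⊢
    refine ⟨hE hr.1, fun k' hk' => ?_⟩
    rw [mem_singleton] at hk'
    rw [hk']; exact hr.2
  have hsum : E.card = ∑ v ∈ V, (E.filter (fun r => r k = v)).card :=
    Finset.card_eq_sum_card_fiberwise (fun r hr => hk r hr)
  calc E.card * (t k).card = ∑ v ∈ V, (E.filter (fun r => r k = v)).card * (t k).card := by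
        rw [hsum, Finset.sum_mul]
    _ ≤ ∑ v ∈ V, (Fintype.piFinset t).card := Finset.sum_le_sum key
    _ = V.card * (Fintype.piFinset t).card := by rw [Finset.sum_const, smul_eq_mul]
    _ ≤ _ := Nat.mul_le_mul_right _ hV

/-- the data of a level -/
structure Lev (κ : Type*) where
  QF : ℕ
  Q1 : ℕ
  Q2 : ℕ
  YF : Finset ℕ
  Y1 : Finset ℕ
  Y2 : Finset ℕ
  k1 : ℕ → κ
  k2 : ℕ → ℕ → κ
  cF : (κ → ℕ) → ℕ → ZMod QF
  L1 : ℕ → ZMod Q1
  u1 : (ZMod Q1)ˣ
  L2 : ℕ → ZMod Q2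
  u2 : (ZMod Q2)ˣ
  rho : (κ → ℕ) → ℕ → ℕ → ℕ → ℕ
  /-- representations of a difference -/
  C0 : ℕ
  /-- slack in the sizes -/
  E0 : ℕ

/-- the modulus -/
def Lev.Q {κ : Type*} (S : Lev κ) : ℕ := S.QF * S.Q1 * S.Q2

/-- requirements; `K₀` : common keys -/
structure Lev.Ok {κ : Type*} [Fintype κ] [DecidableEq κ] (S : Lev κ) (t : κ → Finset ℕ)
    (K₀ : Finset κ) : Prop where
  pF : 0 < S.QF
  p1 : 0 < S.Q1
  p2 : 0 < S.Q2
  cop1 : S.QF.Coprime S.Q1
  cop2 : (S.QF * S.Q1).Coprime S.Q2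
  yF : S.YF.card ^ 2 ≤ S.QF
  y1 : S.Y1.card ^ 2 ≤ S.Q1
  y2 : S.Y2.card ^ 2 ≤ S.Q2
  e0 : 1 ≤ S.E0
  sF : S.QF ≤ S.E0 * (S.Q1 * S.Q2)
  s1 : S.Q1 ≤ S.E0 * (S.QF * S.Q2)
  s2 : S.Q2 ≤ S.E0 * (S.QF * S.Q1)
  inj1 : ∀ x ∈ S.YF, ∀ x' ∈ S.YF, S.k1 x = S.k1 x' → x = x'
  inj2 : ∀ x ∈ S.YF, ∀ x' ∈ S.YF, ∀ y ∈ S.Y1, ∀ y' ∈ S.Y1, S.k2 x y = S.k2 x' y' → x = x' ∧ y = y'
  dis : ∀ x ∈ S.YF, ∀ x' ∈ S.YF, ∀ y ∈ S.Y1, S.k1 x ≠ S.k2 x' y
  t1 : ∀ x ∈ S.YF, t (S.k1 x) = range S.Q1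
  t2 : ∀ x ∈ S.YF, ∀ y ∈ S.Y1, t (S.k2 x y) = range S.Q2
  n1 : ∀ x ∈ S.YF, S.k1 x ∉ K₀
  n2 : ∀ x ∈ S.YF, ∀ y ∈ S.Y1, S.k2 x y ∉ K₀
  lt : ∀ r ∈ Fintype.piFinset t, ∀ x ∈ S.YF, ∀ y ∈ S.Y1, ∀ z ∈ S.Y2, S.rho r x y z < S.Q
  mF : ∀ r ∈ Fintype.piFinset t, ∀ x ∈ S.YF, ∀ y ∈ S.Y1,
    ∀ z ∈ S.Y2, ((S.rho r x y z : ℕ) : ZMod S.QF) = S.cF r x
  cF' : ∀ r ∈ Fintype.piFinset t, ∀ r' ∈ Fintype.piFinset t, ∀ x, (∀ k ∈ K₀, r k = r' k) →
    S.cF r x = S.cF r' x
  m1 : ∀ r ∈ Fintype.piFinset t, ∀ x ∈ S.YF, ∀ y ∈ S.Y1, ∀ z ∈ S.Y2,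
      ((S.rho r x y z : ℕ) : ZMod S.Q1) = S.L1 y + S.u1 * (r (S.k1 x) : ℕ)
  m2 : ∀ r ∈ Fintype.piFinset t, ∀ x ∈ S.YF, ∀ y ∈ S.Y1, ∀ z ∈ S.Y2,
      ((S.rho r x y z : ℕ) : ZMod S.Q2) = S.L2 z + S.u2 * (r (S.k2 x y) : ℕ)
  d1 : DifLe S.L1 S.Y1 S.C0
  d2 : DifLe S.L2 S.Y2 S.C0

/-- the conditions defining an arithmetic progression -/
def AP (a A h c x : ℕ) : Prop := (a ≤ x ∧ x < a + A) ∧ x ≡ c [MOD h]

instance (a A h c x : ℕ) : Decidable (AP a A h c x) := by unfold AP; infer_instance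

section defs

variable {κ : Type*}

/-- the number of `(y_F, y₁, y₂)` with a code in the progression -/
def Lev.X (S : Lev κ) (a A h c : ℕ) (r : κ → ℕ) : ℕ :=
  ((S.YF ×ˢ (S.Y1 ×ˢ S.Y2)).filter (fun g => AP a A h c (S.rho r g.1 g.2.1 g.2.2))).card

/-- the progression meets the residue class of `(y_F, y₁)` -/
def Lev.Act (S : Lev κ) (a A h c : ℕ) (r : κ → ℕ) (x y : ℕ) : Prop :=
  ∃ v, AP a A h c v ∧ (v : ZMod S.QF) = S.cF r x ∧ (v : ZMod S.Q1) = S.L1 y + S.u1 * (r (S.k1 x) : ℕ)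

open Classical in
/-- the number of active `y₁` -/
noncomputable def Lev.XF (S : Lev κ) (a A h c : ℕ) (x : ℕ) (r : κ → ℕ) : ℕ :=
  (S.Y1.filter (fun y => S.Act a A h c r x y)).card

open Classical in
/-- active pairs -/
noncomputable def Lev.AA (S : Lev κ) (a A h c : ℕ) (r : κ → ℕ) : Finset (ℕ × ℕ) :=
  (S.YF ×ˢ S.Y1).filter (fun g => S.Act a A h c r g.1 g.2)

/-- number of `y₂` -/
def Lev.XK (S : Lev κ) (a A h c : ℕ) (g : ℕ × ℕ) (r : κ → ℕ) : ℕ :=
  (S.Y2.filter (fun z => AP a A h c (S.rho r g.1 g.2 z))).card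

theorem Lev.AA_card (S : Lev κ) (a A h c : ℕ) (r : κ → ℕ) :
    (S.AA a A h c r).card = ∑ x ∈ S.YF, S.XF a A h c x r := by
  classical
  rw [Lev.AA, Finset.card_filter, Finset.sum_product]
  refine Finset.sum_congr rfl (fun x _ => ?_)
  rw [Lev.XF, Finset.card_filter]

end defs

section stage

variable {κ : Type*} [Fintype κ] [DecidableEq κ] {S : Lev κ} {t : κ → Finset ℕ} {K₀ : Finset κ}

/-- space of the keys, given the values `r₀` on `K` -/
def fibT (t : κ → Finset ℕ) (K : Finset κ) (r₀ : κ → ℕ) : κ → Finset ℕ :=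
  fun k => if k ∈ K then {r₀ k} else t k

theorem fibT_sub {K : Finset κ} {r₀ : κ → ℕ} (hr₀ : r₀ ∈ Fintype.piFinset t) {r : κ → ℕ}
    (hr : r ∈ Fintype.piFinset (fibT t K r₀)) : r ∈ Fintype.piFinset t := by
  rw [Fintype.mem_piFinset] at hr hr₀ ⊢
  intro k
  have h1 := hr k
  rw [fibT] at h1
  by_cases hk : k ∈ K
  · rw [if_pos hk, mem_singleton] at h1; rw [h1]; exact hr₀ k
  · rw [if_neg hk] at h1; exact h1

theorem fibT_eq {K : Finset κ} {r₀ : κ → ℕ} {r : κ → ℕ}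
    (hr : r ∈ Fintype.piFinset (fibT t K r₀)) {k : κ} (hk : k ∈ K) : r k = r₀ k := by
  have h1 := Fintype.mem_piFinset.1 hr k
  rw [fibT, if_pos hk, mem_singleton] at h1
  exact h1

omit [Fintype κ] in
theorem fibT_out {K : Finset κ} {r₀ : κ → ℕ} {k : κ} (hk : k ∉ K) : fibT t K r₀ k = t k := by
  rw [fibT, if_neg hk]

theorem nat_div_le_real (A m n : ℕ) : ((A / (m * n) : ℕ) : ℝ) ≤ (A : ℝ) / ((m : ℝ) * n) := by
  have := @Nat.cast_div_le ℝ _ _ _ A (m * n)
  push_cast at this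
  exact this

/-! ### stage 1 -/

/-- spike of stage 1 -/
theorem Lev.Ok.spike1 (hS : S.Ok t K₀) {h : ℕ} (hh : 0 < h) (hc : h.Coprime S.QF)
    (a A c : ℕ) {r : κ → ℕ} {x : ℕ} :
    (S.XF a A h c x r : ℝ) ≤
      ((S.C0 : ℝ) + 1) ^ 2 * (1 + Real.sqrt ((A : ℝ) / ((h : ℝ) * S.QF))) := by
  classical
  set G := S.Y1.filter (fun y => S.Act a A h c r x y) with hG
  have hhF : 0 < h * S.QF := Nat.mul_pos hh hS.pF
  have hw : ∀ y ∈ G, ∃ v, AP a A h c v ∧ (v : ZMod S.QF) = S.cF r x ∧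
      (v : ZMod S.Q1) = S.L1 y + S.u1 * (r (S.k1 x) : ℕ) := by
    intro y hy
    rw [hG, mem_filter] at hy
    exact hy.2
  choose! w hw using hw
  set H := (G ×ˢ G).filter (fun z => z.1 ≠ z.2) with hH
  have diff : H.card ≤ (2 * (A / (h * S.QF)) + 1) * S.C0 := by
    set dl : ℕ × ℕ → ℤ := fun z => (w z.1 : ℤ) - (w z.2 : ℤ) with hdl
    have e1 : (H.image dl).card ≤ 2 * (A / (h * S.QF)) + 1 := by
      refine diff_card _ A (h * S.QF) hhF ?_ ?_
      · intro v hv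
        rw [mem_image] at hv
        obtain ⟨z, hz, rfl⟩ := hv
        rw [hH, mem_filter, mem_product] at hz
        have b1 := (hw _ hz.1.1).1.1
        have b2 := (hw _ hz.1.2).1.1
        simp only [hdl]
        constructor <;> omega
      · intro v hv
        rw [mem_image] at hv
        obtain ⟨z, hz, rfl⟩ := hv
        rw [hH, mem_filter, mem_product] at hz
        have b1 := hw _ hz.1.1
        have b2 := hw _ hz.1.2
        have q1 : w z.1 ≡ w z.2 [MOD h * S.QF] := by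
          refine (Nat.modEq_and_modEq_iff_modEq_mul hc).1 ⟨b1.1.2.trans b2.1.2.symm, ?_⟩
          rw [← ZMod.natCast_eq_natCast_iff, b1.2.1, b2.2.1]
        exact (Nat.modEq_iff_dvd.1 q1.symm)
    have e2 : ∀ δ ∈ H.image dl, (H.filter (fun z => dl z = δ)).card ≤ S.C0 := by
      intro δ _
      refine le_trans (card_le_card ?_) (hS.d1 ((δ : ℤ) : ZMod S.Q1))
      intro z hz
      rw [mem_filter, hH, mem_filter, mem_product] at hz
      obtain ⟨⟨⟨z1, z2⟩, z3⟩, z4⟩ := hz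
      rw [mem_filter, mem_product]
      have y1 := (mem_filter.1 (hG ▸ z1)).1
      have y2 := (mem_filter.1 (hG ▸ z2)).1
      refine ⟨⟨y1, y2⟩, z3, ?_⟩
      have q1 := (hw _ z1).2.2
      have q2 := (hw _ z2).2.2
      have q3 : (((dl z : ℤ)) : ZMod S.Q1) = δ := by rw [z4]
      simp only [hdl] at q3
      push_cast at q3
      rw [q1, q2] at q3
      rw [← q3]
      ring
    calc H.card ≤ S.C0 * (H.image dl).card := card_le_mul_card_image _ _ (fun δ hδ => e2 δ hδ)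
      _ ≤ S.C0 * (2 * (A / (h * S.QF)) + 1) := Nat.mul_le_mul_left _ e1
      _ = _ := mul_comm _ _
  have tot : G.card ^ 2 = G.card + H.card := by
    have e1 : H = G.offDiag := by
      ext z
      rw [hH, mem_filter, mem_product, mem_offDiag]
      tauto
    rw [e1, offDiag_card, sq]
    have := Nat.le_mul_self G.card
    omega
  have h2 : ((G.card ^ 2 : ℕ) : ℝ) ≤
      ((G.card + (2 * (A / (h * S.QF)) + 1) * S.C0 : ℕ) : ℝ) := by
    rw [Nat.cast_le, tot]; omega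
  push_cast at h2
  have h3 := nat_div_le_real A h S.QF
  have hC : (0 : ℝ) ≤ S.C0 := Nat.cast_nonneg _
  refine quad_le (G.card : ℝ) ((S.C0 : ℝ) + 1) _ (S.C0 : ℝ) hC rfl (by positivity) ?_
  refine h2.trans ?_
  have h5 : (2 * ((A / (h * S.QF) : ℕ) : ℝ) + 1) * (S.C0 : ℝ) ≤
      (2 * ((A : ℝ) / ((h : ℝ) * S.QF)) + 1) * ((S.C0 : ℝ) * ((S.C0 : ℝ) + 1) ^ 2) := by
    have h6 : (2 * ((A / (h * S.QF) : ℕ) : ℝ) + 1) ≤ (2 * ((A : ℝ) / ((h : ℝ) * S.QF)) + 1) := by
      linarith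
    have h7 : (S.C0 : ℝ) ≤ (S.C0 : ℝ) * ((S.C0 : ℝ) + 1) ^ 2 := by nlinarith [sq_nonneg (S.C0 : ℝ)]
    have h8 : (0 : ℝ) ≤ 2 * ((A : ℝ) / ((h : ℝ) * S.QF)) + 1 := by positivity
    exact mul_le_mul h6 h7 hC h8
  have h9 : (G.card : ℝ) ≤ ((S.C0 : ℝ) + 1) * (G.card : ℝ) := by
    have : (0 : ℝ) ≤ G.card := Nat.cast_nonneg _
    nlinarith
  linarith

/-- mean of stage 1 -/
theorem Lev.Ok.mean1 (hS : S.Ok t K₀) {h : ℕ} (hc : h.Coprime S.QF)
    (a A c : ℕ) {r₀ : κ → ℕ} (hr₀ : r₀ ∈ Fintype.piFinset t) {x : ℕ} (hx : x ∈ S.YF) :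
    ∑ r ∈ Fintype.piFinset (fibT t K₀ r₀), (S.XF a A h c x r : ℝ) ≤
      (Fintype.piFinset (fibT t K₀ r₀)).card *
        ((S.Y1.card : ℝ) * (((A : ℝ) / ((h : ℝ) * S.QF) + 1) / (S.Q1 : ℝ))) := by
  classical
  set t' := fibT t K₀ r₀ with ht'
  have hQ : (0 : ℝ) < (S.Q1 : ℝ) := by exact_mod_cast hS.p1
  have h1 : ∑ r ∈ Fintype.piFinset t', (S.XF a A h c x r : ℝ) =
      ∑ y ∈ S.Y1, (((Fintype.piFinset t').filter (fun r => S.Act a A h c r x y)).card : ℝ) := by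
    have e1 : ∀ r, (S.XF a A h c x r : ℝ) =
        ∑ y ∈ S.Y1, if S.Act a A h c r x y then (1 : ℝ) else 0 := by
      intro r
      rw [Lev.XF, Finset.card_filter]
      push_cast
      rfl
    simp only [e1]
    rw [Finset.sum_comm]
    refine Finset.sum_congr rfl (fun g _ => ?_)
    rw [Finset.card_filter]
    push_cast
    rfl
  rw [h1]
  have h2 : ∀ y ∈ S.Y1, (((Fintype.piFinset t').filter
        (fun r => S.Act a A h c r x y)).card : ℝ) ≤
        (Fintype.piFinset t').card * (((A : ℝ) / ((h : ℝ) * S.QF) + 1) / (S.Q1 : ℝ)) := by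
    intro y hy
    set E := (Fintype.piFinset t').filter (fun r => S.Act a A h c r x y) with hE
    -- the possible values of the key
    set W := ((Ico a (a + A)).filter (fun v => v ≡ c [MOD h] ∧ (v : ZMod S.QF) = S.cF r₀ x))
      with hW
    have hWc : W.card ≤ A / (h * S.QF) + 1 := by
      refine ap_card W a A (h * S.QF) ?_ ?_
      · intro v hv
        rw [hW, mem_filter, mem_Ico] at hv
        exact hv.1
      · intro v hv v' hv'
        rw [hW, mem_filter] at hv hv'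
        refine (Nat.modEq_and_modEq_iff_modEq_mul hc).1 ⟨hv.2.1.trans hv'.2.1.symm, ?_⟩
        rw [← ZMod.natCast_eq_natCast_iff, hv.2.2, hv'.2.2]
    have : NeZero S.Q1 := ⟨hS.p1.ne'⟩
    set V := W.image (fun v : ℕ =>
      (((S.u1⁻¹ : (ZMod S.Q1)ˣ) : ZMod S.Q1) * (((v : ℕ) : ZMod S.Q1) - S.L1 y)).val) with hV
    have h3 := one_key t' (S.k1 x) (A / (h * S.QF) + 1) E (Finset.filter_subset _ _) V
      (card_image_le.trans hWc) (by
        intro r hr
        rw [hE, mem_filter] at hr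
        obtain ⟨hr1, v, hv1, hv2, hv3⟩ := hr
        have hrt := fibT_sub hr₀ hr1
        rw [hV, mem_image]
        refine ⟨v, ?_, ?_⟩
        · rw [hW, mem_filter, mem_Ico]
          refine ⟨hv1.1, hv1.2, ?_⟩
          rw [hv2]
          exact hS.cF' r hrt r₀ hr₀ x (fun k hk => fibT_eq hr1 hk)
        · rw [hv3, add_sub_cancel_left, Units.inv_mul_cancel_left, ZMod.val_natCast]
          have := Fintype.mem_piFinset.1 hrt (S.k1 x)
          rw [hS.t1 x hx, mem_range] at this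
          exact Nat.mod_eq_of_lt this)
    rw [ht', fibT_out (hS.n1 x hx), hS.t1 x hx, card_range, ← ht'] at h3
    have h4 : ((E.card * S.Q1 : ℕ) : ℝ) ≤
        (((A / (h * S.QF) + 1) * (Fintype.piFinset t').card : ℕ) : ℝ) := by exact_mod_cast h3
    push_cast at h4
    have h5 := nat_div_le_real A h S.QF
    rw [← mul_div_assoc, le_div_iff₀ hQ]
    refine h4.trans ?_
    rw [mul_comm]
    exact mul_le_mul_of_nonneg_left (by linarith) (Nat.cast_nonneg _)
  refine (Finset.sum_le_sum h2).trans ?_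
  rw [Finset.sum_const, nsmul_eq_mul]
  apply le_of_eq
  ring

open Classical in
/-- **stage 1** -/
theorem Lev.Ok.stage1 (hS : S.Ok t K₀) {h : ℕ} (hh : 0 < h) (hc : h.Coprime S.QF)
    (a A c : ℕ) (T : ℝ) :
    (((Fintype.piFinset t).filter (fun r =>
      2 * (S.YF.card * ((S.Y1.card : ℝ) * (((A : ℝ) / ((h : ℝ) * S.QF) + 1) / (S.Q1 : ℝ)))) +
      T * (((S.C0 : ℝ) + 1) ^ 2 * (1 + Real.sqrt ((A : ℝ) / ((h : ℝ) * S.QF)))) <
        ((S.AA a A h c r).card : ℝ))).card : ℝ) ≤ (Fintype.piFinset t).card * Real.exp (-T) := by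
  refine cond_card t K₀ _ _ (fun r₀ hr₀ => ?_)
  change (((Fintype.piFinset (fibT t K₀ r₀)).filter _).card : ℝ) ≤
    (Fintype.piFinset (fibT t K₀ r₀)).card * _
  have main := block_chernoff₀ (fibT t K₀ r₀) (fun x => {S.k1 x})
    (fun x r => (S.XF a A h c x r : ℝ))
    (fun _ => (S.Y1.card : ℝ) * (((A : ℝ) / ((h : ℝ) * S.QF) + 1) / (S.Q1 : ℝ))) S.YF
    (((S.C0 : ℝ) + 1) ^ 2 * (1 + Real.sqrt ((A : ℝ) / ((h : ℝ) * S.QF))))
    (by positivity) (fun x hx x' hx' hne => by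
      rw [Finset.disjoint_singleton]
      exact fun he => hne (hS.inj1 x hx x' hx' he))
    (fun x _ r _ => Nat.cast_nonneg _) (fun x _ r _ => hS.spike1 hh hc a A c) (by
      intro x _ r hr r' hr' hb
      have hrt := fibT_sub hr₀ hr
      have hrt' := fibT_sub hr₀ hr'
      have e1 : S.cF r x = S.cF r' x := hS.cF' r hrt r' hrt' x
        (fun k hk => by rw [fibT_eq hr hk, fibT_eq hr' hk])
      have e2 := hb _ (mem_singleton_self _)
      have : ∀ y, S.Act a A h c r x y ↔ S.Act a A h c r' x y := by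
        intro y
        rw [Lev.Act, Lev.Act, e1, e2]
      simp only [Lev.XF, this])
    (fun x hx => hS.mean1 hc a A c hr₀ hx) T
  refine le_trans ?_ main
  rw [Nat.cast_le]
  refine card_le_card (Finset.monotone_filter_right _ (fun r _ hr => ?_))
  have h2 : ((S.AA a A h c r).card : ℝ) = ∑ x ∈ S.YF, (S.XF a A h c x r : ℝ) := by
    rw [Lev.AA_card]; push_cast; rfl
  rw [← h2, Finset.sum_const, nsmul_eq_mul]
  exact hr

/-! ### stage 2 -/

/-- spike of stage 2 -/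
theorem Lev.Ok.spike2 (hS : S.Ok t K₀) {h : ℕ} (hc : h.Coprime S.Q)
    (a A c : ℕ) (hA : A ≤ h * S.QF * S.Q1) {r : κ → ℕ} (hr : r ∈ Fintype.piFinset t)
    {g : ℕ × ℕ} (hg : g ∈ S.YF ×ˢ S.Y1) : S.XK a A h c g r ≤ S.C0 + 1 := by
  rw [mem_product] at hg
  have c0 : h.Coprime S.QF := Nat.Coprime.coprime_dvd_right ⟨S.Q1 * S.Q2, by rw [Lev.Q]; ring⟩ hc
  have c1 : h.Coprime S.Q1 := Nat.Coprime.coprime_dvd_right ⟨S.QF * S.Q2, by rw [Lev.Q]; ring⟩ hc
  have c2 : (h * S.QF).Coprime S.Q1 := Nat.Coprime.mul_left c1 hS.cop1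
  rw [Lev.XK]
  set G := S.Y2.filter (fun z => AP a A h c (S.rho r g.1 g.2 z)) with hG
  rcases G.eq_empty_or_nonempty with he | ⟨z₀, hz₀⟩
  · rw [he, card_empty]; omega
  · have m0 := mem_filter.1 (hG ▸ hz₀)
    have e1 : (G.erase z₀).card ≤
        ((S.Y2 ×ˢ S.Y2).filter (fun z => z.1 ≠ z.2 ∧ S.L2 z.1 - S.L2 z.2 = 0)).card := by
      refine card_le_card_of_injOn (fun z => (z, z₀)) ?_ ?_
      · intro z hz
        rw [mem_coe, mem_erase, hG, mem_filter] at hz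
        obtain ⟨hne, hz1, hz2⟩ := hz
        rw [mem_coe, mem_filter, mem_product]
        refine ⟨⟨hz1, m0.1⟩, hne, ?_⟩
        have q0 : S.rho r g.1 g.2 z ≡ S.rho r g.1 g.2 z₀ [MOD h * S.QF] := by
          refine (Nat.modEq_and_modEq_iff_modEq_mul c0).1 ⟨hz2.2.trans m0.2.2.symm, ?_⟩
          rw [← ZMod.natCast_eq_natCast_iff, hS.mF r hr _ hg.1 _ hg.2 _ hz1,
            hS.mF r hr _ hg.1 _ hg.2 _ m0.1]
        have q3 : S.rho r g.1 g.2 z ≡ S.rho r g.1 g.2 z₀ [MOD h * S.QF * S.Q1] := by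
          refine (Nat.modEq_and_modEq_iff_modEq_mul c2).1 ⟨q0, ?_⟩
          rw [← ZMod.natCast_eq_natCast_iff, hS.m1 r hr _ hg.1 _ hg.2 _ hz1,
            hS.m1 r hr _ hg.1 _ hg.2 _ m0.1]
        have b1 := hz2.1
        have b2 := m0.2.1
        have q4 : S.rho r g.1 g.2 z = S.rho r g.1 g.2 z₀ := by
          have q5 : (S.rho r g.1 g.2 z - a) ≡ (S.rho r g.1 g.2 z₀ - a) [MOD h * S.QF * S.Q1] := by
            have q6 : (S.rho r g.1 g.2 z - a) + a ≡ (S.rho r g.1 g.2 z₀ - a) + a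
                [MOD h * S.QF * S.Q1] := by
              rw [Nat.sub_add_cancel b1.1, Nat.sub_add_cancel b2.1]
              exact q3
            exact Nat.ModEq.add_right_cancel' a q6
          have q7 := Nat.ModEq.eq_of_lt_of_lt q5 (by omega) (by omega)
          omega
        have q8 := hS.m2 r hr _ hg.1 _ hg.2 _ hz1
        have q9 := hS.m2 r hr _ hg.1 _ hg.2 _ m0.1
        rw [q4, q9] at q8
        have q10 := add_right_cancel q8
        simp only
        rw [q10, sub_self]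
      · intro z _ z' _ hzz
        exact congrArg Prod.fst hzz
    have e2 := e1.trans (hS.d2 0)
    rw [card_erase_of_mem hz₀] at e2
    omega

/-- the common keys and the keys of family 1 -/
def Lev.K1 (S : Lev κ) (K₀ : Finset κ) : Finset κ := K₀ ∪ S.YF.image S.k1

omit [Fintype κ] in
theorem Lev.K1_left {S : Lev κ} {k : κ} (h : k ∈ K₀) : k ∈ S.K1 K₀ := mem_union_left _ h

omit [Fintype κ] in
theorem Lev.K1_right {S : Lev κ} {x : ℕ} (h : x ∈ S.YF) : S.k1 x ∈ S.K1 K₀ :=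
  mem_union_right _ (mem_image_of_mem _ h)

/-- inactive pairs do not contribute -/
theorem Lev.Ok.inactive (hS : S.Ok t K₀) (h a A c : ℕ) {r : κ → ℕ} (hr : r ∈ Fintype.piFinset t)
    {g : ℕ × ℕ} (hg : g ∈ S.YF ×ˢ S.Y1) (hA : ¬ S.Act a A h c r g.1 g.2) :
    S.XK a A h c g r = 0 := by
  rw [mem_product] at hg
  rw [Lev.XK, Finset.card_eq_zero]
  refine Finset.filter_false_of_mem (fun z hz hz' => hA ?_)
  exact ⟨_, hz', hS.mF r hr _ hg.1 _ hg.2 _ hz, hS.m1 r hr _ hg.1 _ hg.2 _ hz⟩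

theorem Lev.Ok.X_le (hS : S.Ok t K₀) (h a A c : ℕ) {r : κ → ℕ} (hr : r ∈ Fintype.piFinset t) :
    S.X a A h c r = ∑ g ∈ S.AA a A h c r, S.XK a A h c g r := by
  classical
  have h1 : S.X a A h c r = ∑ g ∈ S.YF ×ˢ S.Y1, S.XK a A h c g r := by
    rw [Lev.X, Finset.card_filter, Finset.sum_product, Finset.sum_product]
    refine Finset.sum_congr rfl (fun x _ => ?_)
    rw [Finset.sum_product]
    refine Finset.sum_congr rfl (fun y _ => ?_)
    rw [Lev.XK, Finset.card_filter]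
  rw [h1]
  symm
  refine Finset.sum_subset (Finset.filter_subset _ _) (fun g hg hg' => ?_)
  refine hS.inactive h a A c hr hg (fun hA => hg' ?_)
  rw [Lev.AA, mem_filter]
  exact ⟨hg, hA⟩

omit [Fintype κ] in
theorem Lev.not_mem_K1 {S : Lev κ} {k : κ} (h0 : k ∉ K₀) (h1 : ∀ x ∈ S.YF, S.k1 x ≠ k) :
    k ∉ S.K1 K₀ := by
  rw [Lev.K1, mem_union, mem_image]
  rintro (hk | ⟨x, hx, he⟩)
  · exact h0 hk
  · exact h1 x hx he

/-- mean of stage 2 -/
theorem Lev.Ok.mean2 (hS : S.Ok t K₀) {h : ℕ} (hc : h.Coprime S.Q)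
    (a A c : ℕ) (hA : A ≤ h * S.QF * S.Q1) {r₀ : κ → ℕ} (hr₀ : r₀ ∈ Fintype.piFinset t)
    {g : ℕ × ℕ} (hg : g ∈ S.YF ×ˢ S.Y1) :
    ∑ r ∈ Fintype.piFinset (fibT t (S.K1 K₀) r₀), (S.XK a A h c g r : ℝ) ≤
      (Fintype.piFinset (fibT t (S.K1 K₀) r₀)).card *
        ((S.Y2.card : ℝ) * (2 / (S.Q2 : ℝ))) := by
  classical
  rw [mem_product] at hg
  have c0 : h.Coprime S.QF := Nat.Coprime.coprime_dvd_right ⟨S.Q1 * S.Q2, by rw [Lev.Q]; ring⟩ hc
  have c1 : h.Coprime S.Q1 := Nat.Coprime.coprime_dvd_right ⟨S.QF * S.Q2, by rw [Lev.Q]; ring⟩ hc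
  have c2 : (h * S.QF).Coprime S.Q1 := Nat.Coprime.mul_left c1 hS.cop1
  set t' := fibT t (S.K1 K₀) r₀ with ht'
  have hQ : (0 : ℝ) < (S.Q2 : ℝ) := by exact_mod_cast hS.p2
  have hk2 : S.k2 g.1 g.2 ∉ S.K1 K₀ :=
    Lev.not_mem_K1 (hS.n2 _ hg.1 _ hg.2) (fun x hx => hS.dis x hx _ hg.1 _ hg.2)
  have h1 : ∑ r ∈ Fintype.piFinset t', (S.XK a A h c g r : ℝ) =
      ∑ z ∈ S.Y2, (((Fintype.piFinset t').filter
        (fun r => AP a A h c (S.rho r g.1 g.2 z))).card : ℝ) := by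
    have e1 : ∀ r, (S.XK a A h c g r : ℝ) =
        ∑ z ∈ S.Y2, if AP a A h c (S.rho r g.1 g.2 z) then (1 : ℝ) else 0 := by
      intro r
      rw [Lev.XK, Finset.card_filter]
      push_cast
      rfl
    simp only [e1]
    rw [Finset.sum_comm]
    refine Finset.sum_congr rfl (fun z _ => ?_)
    rw [Finset.card_filter]
    push_cast
    rfl
  rw [h1]
  have h2 : ∀ z ∈ S.Y2, (((Fintype.piFinset t').filter
        (fun r => AP a A h c (S.rho r g.1 g.2 z))).card : ℝ) ≤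
        (Fintype.piFinset t').card * (2 / (S.Q2 : ℝ)) := by
    intro z hz
    set E := (Fintype.piFinset t').filter (fun r => AP a A h c (S.rho r g.1 g.2 z)) with hE
    set W := E.image (fun r => S.rho r g.1 g.2 z) with hW
    have hWc : W.card ≤ 2 := by
      have h3 : W.card ≤ A / (h * S.QF * S.Q1) + 1 := by
        refine ap_card W a A (h * S.QF * S.Q1) ?_ ?_
        · intro v hv
          rw [hW, mem_image] at hv
          obtain ⟨r, hr, rfl⟩ := hv
          rw [hE, mem_filter] at hr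
          exact hr.2.1
        · intro v hv v' hv'
          rw [hW, mem_image] at hv hv'
          obtain ⟨r, hr, rfl⟩ := hv
          obtain ⟨r', hr', rfl⟩ := hv'
          rw [hE, mem_filter] at hr hr'
          have hrt := fibT_sub hr₀ hr.1
          have hrt' := fibT_sub hr₀ hr'.1
          have e0 : ∀ k ∈ S.K1 K₀, r k = r' k := fun k hk => by
            rw [fibT_eq hr.1 hk, fibT_eq hr'.1 hk]
          refine (Nat.modEq_and_modEq_iff_modEq_mul c2).1
            ⟨(Nat.modEq_and_modEq_iff_modEq_mul c0).1 ⟨hr.2.2.trans hr'.2.2.symm, ?_⟩, ?_⟩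
          · rw [← ZMod.natCast_eq_natCast_iff, hS.mF r hrt _ hg.1 _ hg.2 _ hz,
              hS.mF r' hrt' _ hg.1 _ hg.2 _ hz]
            exact hS.cF' r hrt r' hrt' _ (fun k hk => e0 k (Lev.K1_left hk))
          · rw [← ZMod.natCast_eq_natCast_iff, hS.m1 r hrt _ hg.1 _ hg.2 _ hz,
              hS.m1 r' hrt' _ hg.1 _ hg.2 _ hz,
              e0 _ (Lev.K1_right hg.1)]
      have h4 : A / (h * S.QF * S.Q1) ≤ 1 := Nat.div_le_of_le_mul (by rw [mul_one]; exact hA)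
      omega
    have : NeZero S.Q2 := ⟨hS.p2.ne'⟩
    set V := W.image (fun v : ℕ =>
      (((S.u2⁻¹ : (ZMod S.Q2)ˣ) : ZMod S.Q2) * (((v : ℕ) : ZMod S.Q2) - S.L2 z)).val) with hV
    have h3 := one_key t' (S.k2 g.1 g.2) 2 E (Finset.filter_subset _ _) V
      (card_image_le.trans hWc) (by
        intro r hr
        have hr' := hr
        rw [hE, mem_filter] at hr
        have hrt := fibT_sub hr₀ hr.1
        rw [hV, mem_image]
        refine ⟨S.rho r g.1 g.2 z, ?_, ?_⟩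
        · rw [hW]; exact mem_image_of_mem _ hr'
        · rw [hS.m2 r hrt _ hg.1 _ hg.2 _ hz, add_sub_cancel_left, Units.inv_mul_cancel_left,
            ZMod.val_natCast]
          have := Fintype.mem_piFinset.1 hrt (S.k2 g.1 g.2)
          rw [hS.t2 _ hg.1 _ hg.2, mem_range] at this
          exact Nat.mod_eq_of_lt this)
    rw [ht', fibT_out hk2, hS.t2 _ hg.1 _ hg.2, card_range, ← ht'] at h3
    have h4 : ((E.card * S.Q2 : ℕ) : ℝ) ≤ ((2 * (Fintype.piFinset t').card : ℕ) : ℝ) := by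
      exact_mod_cast h3
    push_cast at h4
    rw [← mul_div_assoc, le_div_iff₀ hQ, mul_comm _ (2 : ℝ)]
    exact h4
  refine (Finset.sum_le_sum h2).trans ?_
  rw [Finset.sum_const, nsmul_eq_mul]
  apply le_of_eq
  ring

open Classical in
/-- **stage 2** -/
theorem Lev.Ok.stage2 (hS : S.Ok t K₀) {h : ℕ} (hc : h.Coprime S.Q)
    (a A c : ℕ) (hA : A ≤ h * S.QF * S.Q1) (N T : ℝ) :
    (((Fintype.piFinset t).filter (fun r => ((S.AA a A h c r).card : ℝ) ≤ N ∧
      2 * (N * ((S.Y2.card : ℝ) * (2 / (S.Q2 : ℝ)))) + T * ((S.C0 : ℝ) + 1) <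
        (S.X a A h c r : ℝ))).card : ℝ) ≤ (Fintype.piFinset t).card * Real.exp (-T) := by
  refine cond_card t (S.K1 K₀) _ _ (fun r₀ hr₀ => ?_)
  change (((Fintype.piFinset (fibT t (S.K1 K₀) r₀)).filter _).card : ℝ) ≤
    (Fintype.piFinset (fibT t (S.K1 K₀) r₀)).card * _
  set t' := fibT t (S.K1 K₀) r₀ with ht'
  have hAA : ∀ r ∈ Fintype.piFinset t', S.AA a A h c r = S.AA a A h c r₀ := by
    intro r hr
    rw [Lev.AA, Lev.AA]
    refine Finset.filter_congr (fun g hg => ?_)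
    rw [mem_product] at hg
    have e1 : S.cF r g.1 = S.cF r₀ g.1 := hS.cF' r (fibT_sub hr₀ hr) r₀ hr₀ _
      (fun k hk => fibT_eq hr (Lev.K1_left hk))
    have e2 : r (S.k1 g.1) = r₀ (S.k1 g.1) :=
      fibT_eq hr (Lev.K1_right hg.1)
    rw [Lev.Act, Lev.Act, e1, e2]
  by_cases hN : ((S.AA a A h c r₀).card : ℝ) ≤ N
  · have hsub : S.AA a A h c r₀ ⊆ S.YF ×ˢ S.Y1 := Finset.filter_subset _ _
    have main := block_chernoff₀ t' (fun g => {S.k2 g.1 g.2})
      (fun g r => (S.XK a A h c g r : ℝ))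
      (fun _ => (S.Y2.card : ℝ) * (2 / (S.Q2 : ℝ))) (S.AA a A h c r₀)
      ((S.C0 : ℝ) + 1)
      (by positivity) (fun g hg g' hg' hne => by
        have m1 := mem_product.1 (hsub hg)
        have m2 := mem_product.1 (hsub hg')
        rw [Finset.disjoint_singleton]
        intro he
        have := hS.inj2 _ m1.1 _ m2.1 _ m1.2 _ m2.2 he
        exact hne (Prod.ext this.1 this.2))
      (fun x _ r _ => Nat.cast_nonneg _) (fun g hg r hr => by
        exact_mod_cast hS.spike2 hc a A c hA (fibT_sub hr₀ hr) (hsub hg)) (by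
        intro g hg r hr r' hr' hb
        have hrt := fibT_sub hr₀ hr
        have hrt' := fibT_sub hr₀ hr'
        have e0 : ∀ k ∈ S.K1 K₀, r k = r' k := fun k hk => by
          rw [fibT_eq hr hk, fibT_eq hr' hk]
        have m1 := mem_product.1 (hsub hg)
        have e2 := hb _ (mem_singleton_self _)
        have : ∀ z ∈ S.Y2, S.rho r g.1 g.2 z = S.rho r' g.1 g.2 z := by
          intro z hz
          have l1 := hS.lt r hrt _ m1.1 _ m1.2 _ hz
          have l2 := hS.lt r' hrt' _ m1.1 _ m1.2 _ hz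
          refine Nat.ModEq.eq_of_lt_of_lt ?_ l1 l2
          rw [Lev.Q]
          refine (Nat.modEq_and_modEq_iff_modEq_mul hS.cop2).1
            ⟨(Nat.modEq_and_modEq_iff_modEq_mul hS.cop1).1 ⟨?_, ?_⟩, ?_⟩
          · rw [← ZMod.natCast_eq_natCast_iff, hS.mF r hrt _ m1.1 _ m1.2 _ hz,
              hS.mF r' hrt' _ m1.1 _ m1.2 _ hz]
            exact hS.cF' r hrt r' hrt' _ (fun k hk => e0 k (Lev.K1_left hk))
          · rw [← ZMod.natCast_eq_natCast_iff, hS.m1 r hrt _ m1.1 _ m1.2 _ hz,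
              hS.m1 r' hrt' _ m1.1 _ m1.2 _ hz,
              e0 _ (Lev.K1_right m1.1)]
          · rw [← ZMod.natCast_eq_natCast_iff, hS.m2 r hrt _ m1.1 _ m1.2 _ hz,
              hS.m2 r' hrt' _ m1.1 _ m1.2 _ hz, e2]
        have h5 : S.Y2.filter (fun z => AP a A h c (S.rho r g.1 g.2 z)) =
            S.Y2.filter (fun z => AP a A h c (S.rho r' g.1 g.2 z)) :=
          Finset.filter_congr (fun z hz => by rw [this z hz])
        simp only [Lev.XK, h5])
      (fun g hg => hS.mean2 hc a A c hA hr₀ (hsub hg)) T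
    refine le_trans ?_ main
    rw [Nat.cast_le]
    refine card_le_card (Finset.monotone_filter_right _ (fun r hr hr' => ?_))
    have h2 : (S.X a A h c r : ℝ) = ∑ g ∈ S.AA a A h c r₀, (S.XK a A h c g r : ℝ) := by
      rw [hS.X_le h a A c (fibT_sub hr₀ hr), hAA r hr]; push_cast; rfl
    rw [← h2, Finset.sum_const, nsmul_eq_mul]
    refine lt_of_le_of_lt ?_ hr'.2
    have h3 : (0 : ℝ) ≤ (S.Y2.card : ℝ) * (2 / (S.Q2 : ℝ)) := by positivity
    have h4 := mul_le_mul_of_nonneg_right hN h3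
    linarith
  · have he : (Fintype.piFinset t').filter (fun r => ((S.AA a A h c r).card : ℝ) ≤ N ∧
      2 * (N * ((S.Y2.card : ℝ) * (2 / (S.Q2 : ℝ)))) + T * ((S.C0 : ℝ) + 1) <
        (S.X a A h c r : ℝ)) = ∅ := by
      refine Finset.filter_false_of_mem (fun r hr hr' => hN ?_)
      rw [← hAA r hr]
      exact hr'.1
    rw [he]
    simp only [card_empty, Nat.cast_zero]
    positivity

/-! ### the two stages together -/

theorem sqrt_card_le {n Q : ℕ} (h : n ^ 2 ≤ Q) : (n : ℝ) ≤ Real.sqrt Q := by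
  apply Real.le_sqrt_of_sq_le
  exact_mod_cast h

/-- the arithmetic of the bounds -/
theorem two_stage_num (nF n1 n2 qF q1 q2 A h c T e : ℝ) (kF : nF ≤ Real.sqrt qF)
    (k1 : n1 ≤ Real.sqrt q1) (k2 : n2 ≤ Real.sqrt q2) (nF0 : 0 ≤ nF) (n10 : 0 ≤ n1) (n20 : 0 ≤ n2)
    (pF : 1 ≤ qF) (p1 : 1 ≤ q1) (p2 : 1 ≤ q2) (hA : 0 ≤ A) (hh : 0 < h)
    (he : 1 ≤ e) (sF : qF ≤ e * (q1 * q2)) (s1 : q1 ≤ e * (qF * q2)) (hc : 1 ≤ c) (hT : 1 ≤ T) :
    2 * ((2 * (nF * (n1 * ((A / (h * qF) + 1) / q1))) + T * (c ^ 2 * (1 + Real.sqrt (A / (h * qF))))) *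
      (n2 * (2 / q2))) + T * c ≤
        17 * (T * c ^ 2 * e) * (1 + A / (h * Real.sqrt (qF * q1 * q2))) := by
  set a := Real.sqrt qF with ha
  set b := Real.sqrt q1 with hb
  set d := Real.sqrt q2 with hd
  have ea : a ^ 2 = qF := Real.sq_sqrt (by linarith)
  have eb : b ^ 2 = q1 := Real.sq_sqrt (by linarith)
  have ed : d ^ 2 = q2 := Real.sq_sqrt (by linarith)
  have oa : 1 ≤ a := Real.one_le_sqrt.2 pF
  have ob : 1 ≤ b := Real.one_le_sqrt.2 p1
  have od : 1 ≤ d := Real.one_le_sqrt.2 p2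
  have hQ : Real.sqrt (qF * q1 * q2) = a * b * d := by
    rw [Real.sqrt_mul (by positivity), Real.sqrt_mul (by positivity)]
  have hes : Real.sqrt e ≤ e := by
    rw [Real.sqrt_le_left (by linarith)]
    nlinarith
  have hab : a ≤ e * (b * d) := by
    have h1 := Real.sqrt_le_sqrt sF
    rw [Real.sqrt_mul (by positivity), Real.sqrt_mul (by positivity)] at h1
    exact h1.trans (mul_le_mul_of_nonneg_right hes (by positivity))
  have hba : b ≤ e * (a * d) := by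
    have h1 := Real.sqrt_le_sqrt s1
    rw [Real.sqrt_mul (by positivity), Real.sqrt_mul (by positivity)] at h1
    exact h1.trans (mul_le_mul_of_nonneg_right hes (by positivity))
  rw [hQ]
  set m := A / (h * (a * b * d)) with hm
  set x := A / (h * qF) with hx
  have hm0 : 0 ≤ m := by positivity
  have hx0 : 0 ≤ x := by positivity
  have hTc : 1 ≤ T * c ^ 2 := by nlinarith [sq_nonneg c]
  -- first part
  have f1 : nF * (n1 * ((x + 1) / q1)) ≤ a / b * (x + 1) := by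
    have g1 : 0 ≤ (x + 1) / q1 := by positivity
    calc nF * (n1 * ((x + 1) / q1)) ≤ a * (b * ((x + 1) / q1)) :=
          mul_le_mul kF (mul_le_mul_of_nonneg_right k1 g1) (by positivity) (by positivity)
      _ = a / b * (x + 1) := by rw [← eb]; field_simp
  have f2 : n2 * (2 / q2) ≤ 2 / d := by
    calc n2 * (2 / q2) ≤ d * (2 / q2) := mul_le_mul_of_nonneg_right k2 (by positivity)
      _ = 2 / d := by rw [← ed]; field_simp
  have f3 : a / b * x * (1 / d) = m := by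
    rw [hx, hm, ← ea]; field_simp
  have f4 : a / b * (1 / d) ≤ e := by
    rw [div_mul_div_comm, mul_one, div_le_iff₀ (by positivity)]; exact hab
  have f5 : Real.sqrt x * (1 / d) ≤ 1 + e * m := by
    have g1 : Real.sqrt x * (1 / d) = Real.sqrt (x / q2) := by
      rw [Real.sqrt_div hx0, ← hd]; ring
    have g2 : Real.sqrt (x / q2) ≤ 1 + x / q2 := by
      have g3 : 0 ≤ x / q2 := by positivity
      rw [Real.sqrt_le_left (by positivity)]
      nlinarith
    have g4 : x / q2 ≤ e * m := by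
      rw [hx, hm, div_div, ← ea, ← ed, ← mul_div_assoc,
        div_le_div_iff₀ (by positivity) (by positivity)]
      have : a * b * d ≤ e * (a ^ 2 * d ^ 2) := by
        calc a * b * d ≤ a * (e * (a * d)) * d := by
              refine mul_le_mul_of_nonneg_right ?_ (by positivity)
              exact mul_le_mul_of_nonneg_left hba (by positivity)
          _ = e * (a ^ 2 * d ^ 2) := by ring
      calc A * (h * (a * b * d)) ≤ A * (h * (e * (a ^ 2 * d ^ 2))) :=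
            mul_le_mul_of_nonneg_left (mul_le_mul_of_nonneg_left this hh.le) hA
        _ = _ := by ring
    rw [g1]
    linarith
  have f6 : 1 / d ≤ 1 := by rw [div_le_one (by positivity)]; exact od
  have f7 : (0 : ℝ) ≤ 2 * (nF * (n1 * ((x + 1) / q1))) + T * (c ^ 2 * (1 + Real.sqrt x)) := by
    positivity
  have f8 : (2 * (nF * (n1 * ((x + 1) / q1))) + T * (c ^ 2 * (1 + Real.sqrt x))) * (n2 * (2 / q2)) ≤
      (2 * (a / b * (x + 1)) + T * (c ^ 2 * (1 + Real.sqrt x))) * (2 / d) := by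
    refine mul_le_mul ?_ f2 (by positivity) (by positivity)
    linarith
  have f9 : (2 * (a / b * (x + 1)) + T * (c ^ 2 * (1 + Real.sqrt x))) * (2 / d) =
      4 * (a / b * x * (1 / d)) + 4 * (a / b * (1 / d)) +
        2 * (T * c ^ 2) * (1 / d + Real.sqrt x * (1 / d)) := by ring
  rw [f9, f3] at f8
  have f10 : 2 * (T * c ^ 2) * (1 / d + Real.sqrt x * (1 / d)) ≤ 2 * (T * c ^ 2) * (2 + e * m) :=
    mul_le_mul_of_nonneg_left (by linarith) (by linarith)
  have f11 : T * c ≤ T * c ^ 2 := by nlinarith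
  set y := T * c ^ 2 with hy
  have f12 : m ≤ y * e * m := by
    have : 1 ≤ y * e := by nlinarith
    nlinarith
  have f13 : y ≤ y * e := by nlinarith
  have f14 : e ≤ y * e := by nlinarith
  have f15 : 2 * y * (2 + e * m) = 4 * y + 2 * (y * e * m) := by ring
  have f16 : 17 * (y * e) * (1 + m) = 17 * (y * e) + 17 * (y * e * m) := by ring
  have f17 : 0 ≤ y * e * m := by positivity
  rw [f16]
  rw [f15] at f10
  linarith

/-- the short progressions are under control -/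
def Lev.Good (S : Lev κ) (T : ℝ) (r : κ → ℕ) : Prop :=
  ∀ a < S.Q, ∀ A ≤ S.Q, ∀ h, 0 < h → h ≤ S.Q → h.Coprime S.Q → ∀ c < h, A ≤ h * S.QF * S.Q1 →
    (S.X a A h c r : ℝ) ≤ 17 * (T * ((S.C0 : ℝ) + 1) ^ 2 * S.E0) *
      (1 + (A : ℝ) / ((h : ℝ) * Real.sqrt S.Q))

open Classical in
/-- one short progression -/
theorem Lev.Ok.one (hS : S.Ok t K₀) {h : ℕ} (hh : 0 < h) (hc : h.Coprime S.Q)
    (a A c : ℕ) (hA : A ≤ h * S.QF * S.Q1) (T : ℝ) (hT : 1 ≤ T) :
    (((Fintype.piFinset t).filter (fun r => 17 * (T * ((S.C0 : ℝ) + 1) ^ 2 * S.E0) *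
      (1 + (A : ℝ) / ((h : ℝ) * Real.sqrt S.Q)) < (S.X a A h c r : ℝ))).card : ℝ) ≤
      (Fintype.piFinset t).card * (2 * Real.exp (-T)) := by
  have c0 : h.Coprime S.QF := Nat.Coprime.coprime_dvd_right ⟨S.Q1 * S.Q2, by rw [Lev.Q]; ring⟩ hc
  set N : ℝ := 2 * (S.YF.card * ((S.Y1.card : ℝ) * (((A : ℝ) / ((h : ℝ) * S.QF) + 1) / (S.Q1 : ℝ)))) +
      T * (((S.C0 : ℝ) + 1) ^ 2 * (1 + Real.sqrt ((A : ℝ) / ((h : ℝ) * S.QF)))) with hN
  have h1 := hS.stage1 hh c0 a A c T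
  have h2 := hS.stage2 hc a A c hA N T
  have hC : (0 : ℝ) ≤ S.C0 := Nat.cast_nonneg _
  have h3 := two_stage_num S.YF.card S.Y1.card S.Y2.card S.QF S.Q1 S.Q2 A h ((S.C0 : ℝ) + 1) T S.E0
    (sqrt_card_le hS.yF) (sqrt_card_le hS.y1) (sqrt_card_le hS.y2) (Nat.cast_nonneg _)
    (Nat.cast_nonneg _) (Nat.cast_nonneg _) (by exact_mod_cast hS.pF) (by exact_mod_cast hS.p1)
    (by exact_mod_cast hS.p2) (Nat.cast_nonneg _) (by exact_mod_cast hh)
    (by exact_mod_cast hS.e0) (by exact_mod_cast hS.sF) (by exact_mod_cast hS.s1) (by linarith) hT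
  have hQc : ((S.Q : ℕ) : ℝ) = (S.QF : ℝ) * S.Q1 * S.Q2 := by rw [Lev.Q]; push_cast; ring
  rw [← hN, ← hQc] at h3
  have h4 : (Fintype.piFinset t).filter (fun r => 17 * (T * ((S.C0 : ℝ) + 1) ^ 2 * S.E0) *
      (1 + (A : ℝ) / ((h : ℝ) * Real.sqrt S.Q)) < (S.X a A h c r : ℝ)) ⊆
      (Fintype.piFinset t).filter (fun r => N < ((S.AA a A h c r).card : ℝ)) ∪
      (Fintype.piFinset t).filter (fun r => ((S.AA a A h c r).card : ℝ) ≤ N ∧
        2 * (N * ((S.Y2.card : ℝ) * (2 / (S.Q2 : ℝ)))) + T * ((S.C0 : ℝ) + 1) <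
        (S.X a A h c r : ℝ)) := by
    intro r hr
    rw [mem_filter] at hr
    rw [mem_union, mem_filter, mem_filter]
    by_cases hr' : N < ((S.AA a A h c r).card : ℝ)
    · exact Or.inl ⟨hr.1, hr'⟩
    · push Not at hr'
      exact Or.inr ⟨hr.1, hr', lt_of_le_of_lt h3 hr.2⟩
  have h5 : (((Fintype.piFinset t).filter (fun r => 17 * (T * ((S.C0 : ℝ) + 1) ^ 2 * S.E0) *
      (1 + (A : ℝ) / ((h : ℝ) * Real.sqrt S.Q)) < (S.X a A h c r : ℝ))).card : ℝ) ≤
      (((Fintype.piFinset t).filter (fun r => N < ((S.AA a A h c r).card : ℝ))).card : ℝ) +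
      (((Fintype.piFinset t).filter (fun r => ((S.AA a A h c r).card : ℝ) ≤ N ∧
        2 * (N * ((S.Y2.card : ℝ) * (2 / (S.Q2 : ℝ)))) + T * ((S.C0 : ℝ) + 1) <
        (S.X a A h c r : ℝ))).card : ℝ) := by
    exact_mod_cast (card_le_card h4).trans (card_union_le _ _)
  linarith

open Classical in
/-- probability of `Good` -/
theorem Lev.Ok.good (hS : S.Ok t K₀) (T : ℝ) (hT : 1 ≤ T) :
    (((Fintype.piFinset t).filter (fun r => ¬ S.Good T r)).card : ℝ) ≤
      (Fintype.piFinset t).card * (2 * ((S.Q : ℝ) + 1) ^ 4 * Real.exp (-T)) := by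
  set I := (range (S.Q + 1) ×ˢ range (S.Q + 1)) ×ˢ (range (S.Q + 1) ×ˢ range (S.Q + 1)) with hI
  set E : (ℕ × ℕ) × (ℕ × ℕ) → Finset (κ → ℕ) := fun z => (Fintype.piFinset t).filter (fun r =>
    (0 < z.2.1 ∧ z.2.1.Coprime S.Q ∧ z.1.2 ≤ z.2.1 * S.QF * S.Q1) ∧
    17 * (T * ((S.C0 : ℝ) + 1) ^ 2 * S.E0) * (1 + (z.1.2 : ℝ) / ((z.2.1 : ℝ) * Real.sqrt S.Q)) <
        (S.X z.1.1 z.1.2 z.2.1 z.2.2 r : ℝ)) with hE
  have h1 : (Fintype.piFinset t).filter (fun r => ¬ S.Good T r) ⊆ I.biUnion E := by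
    intro r hr
    rw [mem_filter, Lev.Good] at hr
    obtain ⟨hr0, hr1⟩ := hr
    push Not at hr1
    obtain ⟨a, ha, A, hA, h, hh, hhQ, hc, c, hch, hA2, hlt⟩ := hr1
    rw [mem_biUnion]
    refine ⟨((a, A), (h, c)), ?_, ?_⟩
    · rw [hI]
      simp only [mem_product, mem_range]
      omega
    · rw [hE]
      simp only [mem_filter]
      exact ⟨hr0, ⟨hh, hc, hA2⟩, hlt⟩
  have h2 : ∀ z ∈ I, ((E z).card : ℝ) ≤ (Fintype.piFinset t).card * (2 * Real.exp (-T)) := by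
    intro z _
    by_cases hz : 0 < z.2.1 ∧ z.2.1.Coprime S.Q ∧ z.1.2 ≤ z.2.1 * S.QF * S.Q1
    · refine le_trans ?_ (hS.one hz.1 hz.2.1 z.1.1 z.1.2 z.2.2 hz.2.2 T hT)
      rw [Nat.cast_le]
      refine card_le_card (Finset.monotone_filter_right _ (fun r _ hr => hr.2))
    · have : E z = ∅ := by
        rw [hE]
        simp only
        exact Finset.filter_false_of_mem (fun r _ h => hz h.1)
      rw [this]
      simp only [card_empty, Nat.cast_zero]
      positivity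
  calc (((Fintype.piFinset t).filter (fun r => ¬ S.Good T r)).card : ℝ)
      ≤ ((I.biUnion E).card : ℝ) := by exact_mod_cast card_le_card h1
    _ ≤ ∑ z ∈ I, ((E z).card : ℝ) := by exact_mod_cast card_biUnion_le
    _ ≤ ∑ z ∈ I, (Fintype.piFinset t).card * (2 * Real.exp (-T)) := Finset.sum_le_sum h2
    _ = _ := by
      rw [Finset.sum_const, nsmul_eq_mul, hI]
      simp only [card_product, card_range]
      push_cast
      ring

end stage

section final

variable {κ : Type*}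

/-- monotonicity of the count -/
theorem Lev.X_mono (S : Lev κ) {a A h c a' A' h' c' : ℕ} {r : κ → ℕ}
    (H : ∀ x ∈ S.YF, ∀ y ∈ S.Y1, ∀ z ∈ S.Y2, AP a A h c (S.rho r x y z) →
      AP a' A' h' c' (S.rho r x y z)) : S.X a A h c r ≤ S.X a' A' h' c' r := by
  refine card_le_card (fun g hg => ?_)
  rw [mem_filter, mem_product, mem_product] at hg ⊢
  exact ⟨hg.1, H _ hg.1.1 _ hg.1.2.1 _ hg.1.2.2 hg.2⟩

/-- cutting an arc into pieces -/
theorem Lev.X_pieces (S : Lev κ) (a B h c : ℕ) (hB : 0 < B) (r : κ → ℕ) (n : ℕ) :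
    S.X a (n * B) h c r ≤ ∑ i ∈ range n, S.X (a + i * B) B h c r := by
  classical
  have h1 : ((S.YF ×ˢ (S.Y1 ×ˢ S.Y2)).filter (fun g => AP a (n * B) h c (S.rho r g.1 g.2.1 g.2.2))) ⊆
      (range n).biUnion (fun i => (S.YF ×ˢ (S.Y1 ×ˢ S.Y2)).filter
        (fun g => AP (a + i * B) B h c (S.rho r g.1 g.2.1 g.2.2))) := by
    intro g hg
    rw [mem_filter] at hg
    obtain ⟨hg1, ⟨hg2, hg3⟩, hg4⟩ := hg
    rw [mem_biUnion]
    refine ⟨(S.rho r g.1 g.2.1 g.2.2 - a) / B, ?_, ?_⟩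
    · rw [mem_range, Nat.div_lt_iff_lt_mul hB]
      omega
    · rw [mem_filter]
      refine ⟨hg1, ⟨?_, ?_⟩, hg4⟩
      · have := Nat.div_mul_le_self (S.rho r g.1 g.2.1 g.2.2 - a) B
        omega
      · have := Nat.lt_div_mul_add (a := S.rho r g.1 g.2.1 g.2.2 - a) hB
        omega
  exact (card_le_card h1).trans card_biUnion_le

/-- **Regularity of a level**: all arcs and all classes -/
def Lev.Reg (S : Lev κ) (R : ℝ) (r : κ → ℕ) : Prop :=
  ∀ a A h c, 0 < h → h.Coprime S.Q → (S.X a A h c r : ℝ) ≤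
    R * (1 + (A : ℝ) / ((h : ℝ) * Real.sqrt S.Q))

variable [Fintype κ] [DecidableEq κ] {S : Lev κ} {t : κ → Finset ℕ} {K₀ : Finset κ}

theorem Lev.Ok.reg_of_good (hS : S.Ok t K₀) {T : ℝ} (hT : 1 ≤ T) {r : κ → ℕ}
    (hr : r ∈ Fintype.piFinset t) (hg : S.Good T r) :
    S.Reg (68 * (T * ((S.C0 : ℝ) + 1) ^ 2 * S.E0 ^ 2)) r := by
  have pF : (0 : ℝ) < S.QF := by exact_mod_cast hS.pF
  have p1 : (0 : ℝ) < S.Q1 := by exact_mod_cast hS.p1
  have p2 : (0 : ℝ) < S.Q2 := by exact_mod_cast hS.p2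
  have pQ : 0 < S.Q := Nat.mul_pos (Nat.mul_pos hS.pF hS.p1) hS.p2
  have pQr : (0 : ℝ) < S.Q := by exact_mod_cast pQ
  have sQ : 0 < Real.sqrt S.Q := Real.sqrt_pos.2 pQr
  have he : (1 : ℝ) ≤ S.E0 := by exact_mod_cast hS.e0
  set M := T * ((S.C0 : ℝ) + 1) ^ 2 * S.E0 with hM
  have hM1 : 1 ≤ M := by
    have h0 : (0 : ℝ) ≤ S.C0 := Nat.cast_nonneg _
    have h1 : 1 ≤ T * ((S.C0 : ℝ) + 1) ^ 2 := by nlinarith [sq_nonneg (S.C0 : ℝ)]
    rw [hM]
    nlinarith
  -- `sqrt Q ≤ E Q_F Q_1`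
  have hsq : Real.sqrt S.Q ≤ (S.E0 : ℝ) * (S.QF * S.Q1) := by
    rw [Real.sqrt_le_left (by positivity)]
    have e1 : S.Q ≤ (S.E0 * (S.QF * S.Q1)) ^ 2 := by
      calc S.Q = (S.QF * S.Q1) * S.Q2 := rfl
        _ ≤ (S.QF * S.Q1) * (S.E0 * (S.QF * S.Q1)) := Nat.mul_le_mul_left _ hS.s2
        _ ≤ (S.E0 * (S.QF * S.Q1)) * (S.E0 * (S.QF * S.Q1)) :=
            Nat.mul_le_mul_right _ (Nat.le_mul_of_pos_left _ hS.e0)
        _ = _ := by rw [sq]
    exact_mod_cast e1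
  have hfin : 68 * (M * S.E0) = 68 * (T * ((S.C0 : ℝ) + 1) ^ 2 * S.E0 ^ 2) := by rw [hM]; ring
  rw [← hfin]
  -- short progressions with reduced data
  have short : ∀ a A h c, 0 < h → h.Coprime S.Q → h ≤ S.Q → A ≤ S.Q → A ≤ h * S.QF * S.Q1 →
      (S.X a A h c r : ℝ) ≤ 17 * M * (1 + (A : ℝ) / ((h : ℝ) * Real.sqrt S.Q)) := by
    intro a A h c hh hc hhQ hAQ hA
    by_cases ha : a < S.Q
    · have e1 : S.X a A h c r = S.X a A h (c % h) r := by
        apply le_antisymm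
        · exact S.X_mono (fun x _ y _ z _ hz => ⟨hz.1, hz.2.trans (Nat.mod_modEq c h).symm⟩)
        · exact S.X_mono (fun x _ y _ z _ hz => ⟨hz.1, hz.2.trans (Nat.mod_modEq c h)⟩)
      rw [e1]
      exact hg a ha A hAQ h hh hhQ hc (c % h) (Nat.mod_lt _ hh) hA
    · have e1 : S.X a A h c r = 0 := by
        rw [Lev.X, Finset.card_eq_zero]
        refine Finset.filter_false_of_mem (fun g hgm hz => ?_)
        rw [mem_product, mem_product] at hgm
        have := hS.lt r hr _ hgm.1 _ hgm.2.1 _ hgm.2.2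
        exact ha (lt_of_le_of_lt hz.1.1 this)
      rw [e1]
      simp only [Nat.cast_zero]
      positivity
  -- all progressions with `h ≤ Q`, `A ≤ Q`
  have mid : ∀ a A h c, 0 < h → h.Coprime S.Q → h ≤ S.Q → A ≤ S.Q →
      (S.X a A h c r : ℝ) ≤ 68 * (M * S.E0) * (1 + (A : ℝ) / ((h : ℝ) * Real.sqrt S.Q)) := by
    intro a A h c hh hc hhQ hAQ
    have ph : (0 : ℝ) < h := by exact_mod_cast hh
    have n1 : 0 ≤ (A : ℝ) / ((h : ℝ) * Real.sqrt S.Q) := by positivity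
    by_cases hA : A ≤ h * S.QF * S.Q1
    · refine (short a A h c hh hc hhQ hAQ hA).trans ?_
      refine mul_le_mul_of_nonneg_right ?_ (by positivity)
      nlinarith
    · push Not at hA
      set B := h * S.QF * S.Q1 with hB
      have pB : 0 < B := Nat.mul_pos (Nat.mul_pos hh hS.pF) hS.p1
      set n := A / B + 1 with hn
      have hnA : A ≤ n * B := by
        rw [hn]
        have := Nat.lt_div_mul_add (a := A) pB
        rw [Nat.add_mul, one_mul]
        exact this.le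
      have hn2 : (n : ℝ) * B ≤ 2 * A := by
        have e1 : n * B ≤ 2 * A := by
          rw [hn, Nat.add_mul, one_mul]
          have := Nat.div_mul_le_self A B
          omega
        exact_mod_cast e1
      have e2 : (S.X a A h c r : ℝ) ≤ ∑ i ∈ range n, (S.X (a + i * B) B h c r : ℝ) := by
        have e3 : S.X a A h c r ≤ ∑ i ∈ range n, S.X (a + i * B) B h c r := by
          refine le_trans (S.X_mono (fun x _ y _ z _ hz => ⟨⟨hz.1.1, ?_⟩, hz.2⟩))
            (S.X_pieces a B h c pB r n)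
          have := hz.1.2
          omega
        exact_mod_cast e3
      have e4 : ∀ i ∈ range n, (S.X (a + i * B) B h c r : ℝ) ≤
          34 * (M * S.E0) * ((B : ℝ) / ((h : ℝ) * Real.sqrt S.Q)) := by
        intro i _
        refine (short _ B h c hh hc hhQ (hA.le.trans hAQ) le_rfl).trans ?_
        have f2 : 1 ≤ S.E0 * ((B : ℝ) / ((h : ℝ) * Real.sqrt S.Q)) := by
          rw [← mul_div_assoc, le_div_iff₀ (by positivity), one_mul, hB]
          push_cast
          calc (h : ℝ) * Real.sqrt S.Q ≤ h * ((S.E0 : ℝ) * (S.QF * S.Q1)) :=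
                mul_le_mul_of_nonneg_left hsq ph.le
            _ = _ := by ring
        set v := (B : ℝ) / ((h : ℝ) * Real.sqrt S.Q) with hv
        have hv0 : 0 ≤ v := by rw [hv]; positivity
        have f3 : 1 + v ≤ 2 * (S.E0 * v) := by nlinarith
        calc 17 * M * (1 + v) ≤ 17 * M * (2 * (S.E0 * v)) :=
              mul_le_mul_of_nonneg_left f3 (by linarith)
          _ = _ := by ring
      calc (S.X a A h c r : ℝ) ≤ ∑ i ∈ range n, (S.X (a + i * B) B h c r : ℝ) := e2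
        _ ≤ ∑ i ∈ range n, 34 * (M * S.E0) * ((B : ℝ) / ((h : ℝ) * Real.sqrt S.Q)) :=
            Finset.sum_le_sum e4
        _ = 34 * (M * S.E0) * ((n * B : ℝ) / ((h : ℝ) * Real.sqrt S.Q)) := by
            rw [Finset.sum_const, nsmul_eq_mul, card_range]; ring
        _ ≤ 34 * (M * S.E0) * ((2 * A : ℝ) / ((h : ℝ) * Real.sqrt S.Q)) := by
            refine mul_le_mul_of_nonneg_left ?_ (by positivity)
            exact div_le_div_of_nonneg_right hn2 (by positivity)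
        _ = 68 * (M * S.E0) * ((A : ℝ) / ((h : ℝ) * Real.sqrt S.Q)) := by ring
        _ ≤ _ := by
            refine mul_le_mul_of_nonneg_left ?_ (by positivity)
            linarith
  -- reduction of `A`
  have midA : ∀ a A h c, 0 < h → h.Coprime S.Q → h ≤ S.Q →
      (S.X a A h c r : ℝ) ≤ 68 * (M * S.E0) * (1 + (A : ℝ) / ((h : ℝ) * Real.sqrt S.Q)) := by
    intro a A h c hh hc hhQ
    have ph : (0 : ℝ) < h := by exact_mod_cast hh
    by_cases hA : A ≤ S.Q
    · exact mid a A h c hh hc hhQ hA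
    · push Not at hA
      have e1 : S.X a A h c r ≤ S.X a S.Q h c r := by
        refine card_le_card (fun g hg => ?_)
        rw [mem_filter, mem_product, mem_product] at hg ⊢
        have := hS.lt r hr _ hg.1.1 _ hg.1.2.1 _ hg.1.2.2
        exact ⟨hg.1, ⟨⟨hg.2.1.1, by omega⟩, hg.2.2⟩⟩
      have e2 : (S.X a A h c r : ℝ) ≤ S.X a S.Q h c r := by exact_mod_cast e1
      refine e2.trans ((mid a S.Q h c hh hc hhQ le_rfl).trans ?_)
      have hA' : (S.Q : ℝ) ≤ A := by exact_mod_cast hA.le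
      refine mul_le_mul_of_nonneg_left ?_ (by positivity)
      have g1 : (S.Q : ℝ) / ((h : ℝ) * Real.sqrt S.Q) ≤ (A : ℝ) / ((h : ℝ) * Real.sqrt S.Q) :=
        div_le_div_of_nonneg_right hA' (by positivity)
      linarith
  -- reduction of `h`
  intro a A h c hh hc
  have ph : (0 : ℝ) < h := by exact_mod_cast hh
  by_cases hhQ : h ≤ S.Q
  · exact midA a A h c hh hc hhQ
  · push Not at hhQ
    have n1 : 0 ≤ (A : ℝ) / ((h : ℝ) * Real.sqrt S.Q) := by positivity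
    have e1 : S.X a A h c r ≤ S.X (c % h) 1 1 0 r := by
      refine S.X_mono (fun x hx y hy z hz hz' => ?_)
      have l1 := hS.lt r hr x hx y hy z hz
      have l2 : S.rho r x y z = c % h := by
        have l3 := hz'.2
        rw [Nat.ModEq, Nat.mod_eq_of_lt (l1.trans hhQ)] at l3
        exact l3
      rw [l2]
      exact ⟨⟨le_rfl, by omega⟩, Nat.modEq_one⟩
    have e2 := short (c % h) 1 1 0 one_pos (Nat.coprime_one_left _) (by omega) (by omega)
      (Nat.one_le_iff_ne_zero.2 (by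
        have := hS.pF
        have := hS.p1
        positivity))
    have e3 : (S.X a A h c r : ℝ) ≤ S.X (c % h) 1 1 0 r := by exact_mod_cast e1
    refine e3.trans (e2.trans ?_)
    push_cast
    rw [one_mul]
    have g1 : (1 : ℝ) / Real.sqrt S.Q ≤ 1 := by
      rw [div_le_one sQ]
      exact Real.one_le_sqrt.2 (by exact_mod_cast pQ)
    have g2 : M ≤ M * S.E0 := by nlinarith
    have g3 : 17 * M * (1 + 1 / Real.sqrt S.Q) ≤ 17 * M * 2 :=
      mul_le_mul_of_nonneg_left (by linarith) (by linarith)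
    have g4 : 68 * (M * S.E0) * 1 ≤ 68 * (M * S.E0) * (1 + (A : ℝ) / ((h : ℝ) * Real.sqrt S.Q)) :=
      mul_le_mul_of_nonneg_left (by linarith) (by positivity)
    linarith

open Classical in
/-- **Regularity of a static level, probability.** -/
theorem Lev.Ok.regular (hS : S.Ok t K₀) {T : ℝ} (hT : 1 ≤ T) :
    (((Fintype.piFinset t).filter
      (fun r => ¬ S.Reg (68 * (T * ((S.C0 : ℝ) + 1) ^ 2 * S.E0 ^ 2)) r)).card : ℝ) ≤
      (Fintype.piFinset t).card * (2 * ((S.Q : ℝ) + 1) ^ 4 * Real.exp (-T)) := by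
  refine le_trans ?_ (hS.good T hT)
  rw [Nat.cast_le]
  refine card_le_card (fun r hr => ?_)
  rw [mem_filter] at hr ⊢
  exact ⟨hr.1, fun hg => hr.2 (hS.reg_of_good hT hr.1 hg)⟩

end final

end Pool.Agent.Helper41.T5
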