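import Pool.Agent.Helper41.T5.RegCode
import Pool.Agent.Helper45.T5.Pass
import Pool.Agent.Helper87.L3.Count

/-!
# Regularity of the structured windows

`Win Y m s Q Z` is the set of the numbers `s * m y + Q * z`, `y ∈ Y`, `z ∈ Z` (`Z` : windows of the
deeper levels).  `WinReg U Q ρ` : for all arcs of length `L` and all classes modulo `g` (`g` coprime
to `Q`) the number of elements of `U` is at most `ρ (1 + L / (g sqrt Q))`, in the notation `arcc`,
`arc` of `Helper87.L3.Count`.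
-/

set_option autoImplicit false

namespace Pool.Agent.Helper41.T5

open Finset Pool.Agent.Helper27.T4 Pool.Agent.Helper29.T4 Pool.Agent.Helper22.HW
  Pool.Agent.Helper22.SL Pool.Agent.Helper87.L3

/-- the structured windows -/
def Win {β : Type*} [DecidableEq β] (Y : Finset β) (m : β → ℕ) (s Q : ℕ) (Z : Finset ℕ) :
    Finset ℕ := (Y ×ˢ Z).image (fun q => s * m q.1 + Q * q.2)

theorem card_Win_le {β : Type*} [DecidableEq β] (Y : Finset β) (m : β → ℕ) (s Q : ℕ)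
    (Z : Finset ℕ) : (Win Y m s Q Z).card ≤ Y.card * Z.card :=
  card_image_le.trans (card_product _ _).le

/-- regular sets of windows -/
def WinReg (U : Finset ℕ) (Q : ℕ) (ρ : ℝ) : Prop :=
  ∀ g, 0 < g → g.Coprime Q → ∀ a L c : ℕ,
    ((arcc U a L c g).card : ℝ) ≤ ρ * (1 + L / (g * Real.sqrt Q))

theorem WinReg.arc {U : Finset ℕ} {Q : ℕ} {ρ : ℝ} (h : WinReg U Q ρ) (a L : ℕ) :
    ((arc U a L).card : ℝ) ≤ ρ * (1 + L / Real.sqrt Q) := by
  have h1 := h 1 one_pos (Nat.coprime_one_left _) a L 0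
  rw [Nat.cast_one, one_mul] at h1
  refine le_trans ?_ h1
  rw [Nat.cast_le]
  refine card_le_card (fun u hu => ?_)
  rw [Helper87.L3.arc, mem_filter] at hu
  rw [arcc, mem_filter]
  exact ⟨hu.1, hu.2, Nat.modEq_one⟩

theorem WinReg.mono {U : Finset ℕ} {Q : ℕ} {ρ ρ' : ℝ} (h : WinReg U Q ρ) (hρ : ρ ≤ ρ') :
    WinReg U Q ρ' := by
  intro g hg hc a L c
  refine (h g hg hc a L c).trans (mul_le_mul_of_nonneg_right hρ (by positivity))

theorem WinReg.subset {U V : Finset ℕ} {Q : ℕ} {ρ : ℝ} (h : WinReg U Q ρ) (hV : V ⊆ U) :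
    WinReg V Q ρ := by
  intro g hg hc a L c
  refine le_trans ?_ (h g hg hc a L c)
  rw [Nat.cast_le]
  refine card_le_card (fun u hu => ?_)
  rw [arcc, mem_filter] at hu ⊢
  exact ⟨hV hu.1, hu.2⟩

/-- **regular codes give regular windows** -/
theorem win_reg {β : Type*} [DecidableEq β] (Y : Finset β) (m : β → ℕ) {s Q : ℕ} (hs : 0 < s)
    (hQ : 0 < Q) {ρ : ℝ} (hρ : 0 ≤ ρ) (h : RegOK Y m Q ρ) (Z : Finset ℕ) :
    WinReg (Win Y m s Q Z) Q (2 * Z.card * ρ) := by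
  intro g hg hc a L c
  have h1 := Pool.Agent.Helper45.T5.pass Y m hg hs hρ (fun h' hh' => h h'
    (Nat.pos_of_dvd_of_pos hh' hg) (Nat.Coprime.coprime_dvd_left hh' hc)) (Q := Q) Z a L c
  have h2 : (arcc (Win Y m s Q Z) a L c g).card ≤
      ((Y ×ˢ Z).filter fun q => a ≤ s * m q.1 + Q * q.2 ∧ s * m q.1 + Q * q.2 < a + L ∧
      (s * m q.1 + Q * q.2) % g = c % g).card := by
    refine le_trans (card_le_card (t := ((Y ×ˢ Z).filter fun q => a ≤ s * m q.1 + Q * q.2 ∧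
      s * m q.1 + Q * q.2 < a + L ∧ (s * m q.1 + Q * q.2) % g = c % g).image
        (fun q => s * m q.1 + Q * q.2)) ?_) card_image_le
    intro u hu
    rw [arcc, Win, mem_filter, mem_image] at hu
    obtain ⟨⟨q, hq, rfl⟩, hu2, hu3⟩ := hu
    rw [mem_image]
    exact ⟨q, mem_filter.2 ⟨hq, hu2.1, hu2.2, hu3⟩, rfl⟩
  have hQ1 : 1 ≤ Real.sqrt Q := Real.one_le_sqrt.2 (by exact_mod_cast hQ)
  have hgR : (0 : ℝ) < g := by exact_mod_cast hg
  calc ((arcc (Win Y m s Q Z) a L c g).card : ℝ)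
      ≤ Z.card * (ρ * (1 + ((L : ℝ) / g + 1) / Real.sqrt Q)) := by
        refine le_trans ?_ h1
        exact_mod_cast h2
    _ ≤ Z.card * (ρ * (2 * (1 + (L : ℝ) / (g * Real.sqrt Q)))) := by
        refine mul_le_mul_of_nonneg_left (mul_le_mul_of_nonneg_left ?_ hρ) (Nat.cast_nonneg _)
        have e1 : ((L : ℝ) / g + 1) / Real.sqrt Q = L / (g * Real.sqrt Q) + 1 / Real.sqrt Q := by
          field_simp
        have e2 : 1 / Real.sqrt Q ≤ 1 := by
          rw [div_le_one (by linarith)]; exact hQ1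
        have e3 : 0 ≤ (L : ℝ) / (g * Real.sqrt Q) := by positivity
        rw [e1]
        linarith
    _ = _ := by ring

variable {p : Fin 3 → ℕ} {κ : Type*} [DecidableEq κ] {Mk : κ → ℕ}

/-- **Regularity of the structured windows, probability**: all sets `Z` of deeper windows and all
fronts at once. -/
theorem win_prob (hp : ∀ i, (p i).Prime) (hp2 : ∀ i, p i ≠ 2) (hinj : Function.Injective p)
    (S : Side p κ) (hS : S.Ok rk3 Mk) (U : Fin 3 → Finset ℕ) (K : Finset κ)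
    (hU : ∀ i, Pool.Agent.Helper73.T5.SFam (p i) (S.e i) (U i))
    (hK : ∀ i, ∀ y ∈ Fintype.piFinset U, S.key i y ∈ K)
    (Y : Finset (Fin 3 → ℕ)) (hY : Y ⊆ Fintype.piFinset U) (E0 : ℕ) (he : 1 ≤ E0)
    (sF : p 0 ^ S.e 0 ≤ E0 * (p 1 ^ S.e 1 * p 2 ^ S.e 2))
    (s1 : p 1 ^ S.e 1 ≤ E0 * (p 0 ^ S.e 0 * p 2 ^ S.e 2))
    (s2 : p 2 ^ S.e 2 ≤ E0 * (p 0 ^ S.e 0 * p 1 ^ S.e 1)) {T : ℝ} (hT : 1 ≤ T) :
    PrG Mk K (fun w => ¬ ∀ s, 0 < s → ∀ Z : Finset ℕ,
      WinReg (Win Y (fun y => S.cd hp hinj w y / S.F) s (NN p S.e) Z) (NN p S.e)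
        (136 * (T * ((p 1 : ℝ) + p 2) ^ 2 * E0 ^ 2) * Z.card))
      (2 * ((NN p S.e : ℝ) + 1) ^ 4 * Real.exp (-T)) := by
  classical
  have h1 := reg_code hp hp2 hinj S hS U K hU hK Y hY E0 he sF s1 s2 hT
  refine PrG_le (E := (OmK Mk K).filter (fun r => ¬ RegOK Y
    (fun y => S.cd hp hinj (ext K r) y / S.F) (NN p S.e)
      (68 * (T * ((p 1 : ℝ) + p 2) ^ 2 * E0 ^ 2)))) (fun r hr hB => ?_) ?_
  · rw [mem_filter]
    refine ⟨hr, fun hreg => hB ?_⟩
    intro s hs Z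
    have h2 := win_reg Y (fun y => S.cd hp hinj (ext K r) y / S.F) hs (NN_pos hp S.e)
      (by positivity) hreg Z
    refine h2.mono (le_of_eq ?_)
    ring
  · rw [PrG] at h1
    convert h1

end Pool.Agent.Helper41.T5
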